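import Pool.Agent.H90.LB.Num

/-!
# LB, block E2 with exceptional primes: the choice of the parameters
-/

set_option autoImplicit false

namespace H90.LB

open Filter Topology Asymptotics

/-- the primes up to `x` outside `W` -/
noncomputable def QW (x : ℝ) (W : Finset ℕ) : Finset ℕ := (Qx x).filter (fun p => p ∉ W)

theorem QW_card_le (x : ℝ) (W : Finset ℕ) :
    ((QW x W).card : ℝ) ≤ (Nat.primeCounting ⌊x⌋₊ : ℝ) := by
  rw [← Qx_card]
  exact_mod_cast Finset.card_filter_le _ _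

theorem QW_log_mul (x : ℝ) (hx : 1 ≤ x) (W : Finset ℕ) :
    ∑ p ∈ QW x W, Real.log p ≤ (QW x W).card * Real.log x := by
  have h1 : ∑ p ∈ QW x W, Real.log p ≤ ∑ _p ∈ QW x W, Real.log x := by
    refine Finset.sum_le_sum fun p hp => ?_
    have h3 := Finset.mem_filter.1 (Finset.mem_filter.1 hp).1
    have h2 := (Finset.mem_Ioc.1 h3.1)
    exact Real.log_le_log (by exact_mod_cast h2.1)
      ((Nat.cast_le.2 h2.2).trans (Nat.floor_le (by linarith)))
  rwa [Finset.sum_const, nsmul_eq_mul] at h1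

theorem QW_theta (x : ℝ) (hx : 1 ≤ x) (W : Finset ℕ) :
    Chebyshev.theta x - W.card * Real.log x ≤ ∑ p ∈ QW x W, Real.log p := by
  have h0 : Chebyshev.theta x = ∑ p ∈ Qx x, Real.log p := rfl
  have h1 : ∑ p ∈ Qx x, Real.log p = ∑ p ∈ QW x W, Real.log p +
      ∑ p ∈ (Qx x).filter (fun p => ¬ p ∉ W), Real.log p :=
    (Finset.sum_filter_add_sum_filter_not _ _ _).symm
  have h2 : ∑ p ∈ (Qx x).filter (fun p => ¬ p ∉ W), Real.log p ≤ W.card * Real.log x := by
    have h3 : ∑ p ∈ (Qx x).filter (fun p => ¬ p ∉ W), Real.log p ≤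
        ∑ _p ∈ (Qx x).filter (fun p => ¬ p ∉ W), Real.log x := by
      refine Finset.sum_le_sum fun p hp => ?_
      have h3 := Finset.mem_filter.1 (Finset.mem_filter.1 hp).1
      have h2 := (Finset.mem_Ioc.1 h3.1)
      exact Real.log_le_log (by exact_mod_cast h2.1)
        ((Nat.cast_le.2 h2.2).trans (Nat.floor_le (by linarith)))
    rw [Finset.sum_const, nsmul_eq_mul] at h3
    refine h3.trans (mul_le_mul_of_nonneg_right ?_ (Real.log_nonneg hx))
    have h4 : (Qx x).filter (fun p => ¬ p ∉ W) ⊆ W := fun p hp =>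
      not_not.1 (Finset.mem_filter.1 hp).2
    exact_mod_cast Finset.card_le_card h4
  linarith

theorem QW_sum (x : ℝ) (hx : 1 ≤ x) (W : Finset ℕ) :
    ∑ p ∈ QW x W, (p : ℝ) ≤ (QW x W).card * x := by
  have h1 : ∑ p ∈ QW x W, (p : ℝ) ≤ ∑ _p ∈ QW x W, x := by
    refine Finset.sum_le_sum fun p hp => ?_
    have h3 := Finset.mem_filter.1 (Finset.mem_filter.1 hp).1
    exact (Nat.cast_le.2 (Finset.mem_Ioc.1 h3.1).2).trans (Nat.floor_le (by linarith))
  rwa [Finset.sum_const, nsmul_eq_mul] at h1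

/-- the inequality at `x` -/
theorem coreW {x e μ th s P : ℝ} (he : 1 ≤ e) (hx : 1 < x) (hμ : 0 ≤ μ) (hlx : Real.log x ≤ e)
    (hxe : 64 * e ^ 2 ≤ x * Real.log x) (hth : x / 4 ≤ th) (hs0 : 0 ≤ s)
    (hs : s ≤ 2 * x / Real.log x) (hths : th ≤ s * Real.log x) (hP0 : 0 ≤ P) (hP : P ≤ s * x)
    (key : 2 * (th / e) * th ≤ ((th / e) ^ 2 + s) * e + 4 * (th / e + s) * P * μ) :
    Real.log x ^ 2 / (1024 * e * x) ≤ μ := by
  have he0 : 0 < e := by linarith
  have hx0 : 0 < x := by linarith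
  have hlx0 : 0 < Real.log x := Real.log_pos hx
  have hth0 : 0 < th := by linarith
  have hs3 : s * Real.log x ≤ 2 * x := by rwa [le_div_iff₀ hlx0] at hs
  have hx2 : x ^ 2 ≤ 16 * th ^ 2 := by
    have h3 : (x / 4) ^ 2 ≤ th ^ 2 := pow_le_pow_left₀ (by positivity) hth 2
    linarith
  have hse : s * e ≤ th ^ 2 / (2 * e) := by
    rw [le_div_iff₀ (by positivity)]
    have h1 : s * (64 * e ^ 2) ≤ s * (x * Real.log x) := mul_le_mul_of_nonneg_left hxe hs0
    have h2 : s * (x * Real.log x) ≤ 2 * x * x := by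
      have := mul_le_mul_of_nonneg_right hs3 hx0.le
      linarith
    linarith
  have hT : th / e ≤ s := by
    rw [div_le_iff₀ he0]
    exact hths.trans (mul_le_mul_of_nonneg_left hlx hs0)
  have key2 : th ^ 2 / (2 * e) ≤ 8 * s * P * μ := by
    have h1 : 2 * (th / e) * th - ((th / e) ^ 2) * e = th ^ 2 / e := by field_simp; ring
    have h2 : th ^ 2 / e = 2 * (th ^ 2 / (2 * e)) := by field_simp
    have h3 : 4 * (th / e + s) * P * μ ≤ 8 * s * P * μ := by
      have : 4 * (th / e + s) ≤ 8 * s := by linarith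
      exact mul_le_mul_of_nonneg_right (mul_le_mul_of_nonneg_right this hP0) hμ
    linarith
  have hb0 : 0 ≤ 2 * x / Real.log x := by positivity
  have key3 : x ^ 2 / (32 * e) ≤ 8 * (2 * x / Real.log x) * ((2 * x / Real.log x) * x) * μ := by
    have h1 : x ^ 2 / (32 * e) ≤ th ^ 2 / (2 * e) := by
      rw [div_le_div_iff₀ (by positivity) (by positivity)]
      have h5 : x ^ 2 * (2 * e) ≤ 16 * th ^ 2 * (2 * e) :=
        mul_le_mul_of_nonneg_right hx2 (by positivity)
      linarith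
    refine h1.trans (key2.trans ?_)
    have h4 : P ≤ (2 * x / Real.log x) * x := hP.trans (mul_le_mul_of_nonneg_right hs hx0.le)
    have h5 : s * P ≤ (2 * x / Real.log x) * ((2 * x / Real.log x) * x) :=
      mul_le_mul hs h4 hP0 hb0
    have h6 : s * P * μ ≤ (2 * x / Real.log x) * ((2 * x / Real.log x) * x) * μ :=
      mul_le_mul_of_nonneg_right h5 hμ
    linarith
  rw [div_le_iff₀ (by positivity)]
  have h1 : 8 * (2 * x / Real.log x) * ((2 * x / Real.log x) * x) * μ =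
      32 * x ^ 3 * μ / Real.log x ^ 2 := by field_simp; ring
  rw [h1, div_le_div_iff₀ (by positivity) (by positivity)] at key3
  have h2 : 32 * x ^ 3 * μ * (32 * e) = x ^ 2 * (μ * (1024 * e * x)) := by ring
  rw [h2] at key3
  exact le_of_mul_le_mul_left key3 (by positivity)

/-- block E2 with exceptional primes -/
theorem numbersW (C : ℝ) (hC : 1 ≤ C) : ∃ c : ℝ, 0 < c ∧ ∀ L m : ℝ, 0 ≤ L → 0 < m → m ≤ 1 →
    ∀ W : Finset ℕ,
    (∀ ε : ℝ, 0 < ε → ε ≤ 1 / 2 → ∃ E η : ℝ, η ≤ C * ε * (1 + L) ∧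
      E ≤ C * (1 + L) * (Real.log (1 / ε) + 2 * m) ∧
      ∀ T : ℝ, 0 ≤ T → ∀ Q : Finset ℕ, (∀ p ∈ Q, p.Prime ∧ p ∉ W) →
        2 * T * ∑ p ∈ Q, Real.log p ≤ (T ^ 2 + Q.card) * E +
          4 * (T + Q.card) * (∑ p ∈ Q, (p : ℝ)) * (m + η)) →
    c / ((1 + L) * ((1 + L) ^ 2 + W.card)) ≤ m := by
  obtain ⟨X, hX⟩ := cheb
  set B : ℝ := max (Real.exp 2) (max X (1600 * C ^ 2)) with hB
  have hB1 : Real.exp 2 ≤ B := le_max_left _ _
  have hB2 : X ≤ B := (le_max_left _ _).trans (le_max_right _ _)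
  have hB3 : 1600 * C ^ 2 ≤ B := (le_max_right _ _).trans (le_max_right _ _)
  have hB0 : 0 < B := (Real.exp_pos _).trans_le hB1
  have hlB2 : 2 ≤ Real.log B := by rwa [Real.le_log_iff_exp_le hB0]
  have hC0 : 0 < C := by linarith
  have hCC : 1 ≤ C ^ 2 := one_le_pow₀ hC
  have hB4 : 1600 ≤ B := by linarith
  refine ⟨1 / (10240 * C * B ^ 2), by positivity, ?_⟩
  intro L m hL hm hm1 W h
  set u : ℝ := 1 + L with hu
  set w : ℝ := (W.card : ℝ) with hw
  have hu1 : 1 ≤ u := by rw [hu]; linarith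
  have hu0 : 0 < u := by linarith
  have hw0 : 0 ≤ w := Nat.cast_nonneg _
  have huw : 1 ≤ u + w := by linarith
  have huu : u ≤ u ^ 2 := by nlinarith
  set y : ℝ := B * (u + w) with hy
  have hy0 : 0 < y := by positivity
  have hly : Real.log y = Real.log B + Real.log (u + w) :=
    Real.log_mul hB0.ne' (by positivity)
  have hluw : 0 ≤ Real.log (u + w) := Real.log_nonneg huw
  have hBy : B ≤ y := by rw [hy]; nlinarith
  have hy2 : 2 ≤ y := by linarith
  have hε : (y ^ 4)⁻¹ ≤ 1 / 2 := by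
    rw [inv_le_comm₀ (by positivity) (by norm_num)]
    have : y ^ 1 ≤ y ^ 4 := pow_le_pow_right₀ (by linarith) (by norm_num)
    norm_num
    linarith
  obtain ⟨E, η, hη, hE, hmain⟩ := h (y ^ 4)⁻¹ (by positivity) hε
  have hlog : Real.log (1 / (y ^ 4)⁻¹) = 4 * Real.log y := by
    rw [one_div, inv_inv, Real.log_pow]; norm_num
  rw [hlog] at hE
  set e : ℝ := 5 * C * u * Real.log y with he
  have hly2 : 2 ≤ Real.log y := by linarith
  have hCu : 1 ≤ C * u := by nlinarith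
  have hEe : E ≤ e := by
    refine hE.trans ?_
    rw [he]
    have h1 : 4 * Real.log y + 2 * m ≤ 5 * Real.log y := by linarith
    have h2 : C * u * (4 * Real.log y + 2 * m) ≤ C * u * (5 * Real.log y) :=
      mul_le_mul_of_nonneg_left h1 (by positivity)
    linarith
  have hely : 5 * Real.log y ≤ e := by
    rw [he]
    have : 1 * (5 * Real.log y) ≤ C * u * (5 * Real.log y) :=
      mul_le_mul_of_nonneg_right hCu (by linarith)
    linarith
  have he1 : 1 ≤ e := by linarith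
  have he0 : 0 < e := by linarith
  set x : ℝ := B ^ 2 * (u ^ 2 + w) * Real.log y with hx
  have hv1 : 1 ≤ u ^ 2 + w := by linarith
  have hvuw : u + w ≤ u ^ 2 + w := by linarith
  have hBx : B ≤ x := by
    rw [hx]
    have h1 : B * 1 ≤ B * B := mul_le_mul_of_nonneg_left (by linarith) hB0.le
    have h2 : B ^ 2 * 1 ≤ B ^ 2 * (u ^ 2 + w) := mul_le_mul_of_nonneg_left hv1 (by positivity)
    have h3 : B ^ 2 * (u ^ 2 + w) * 1 ≤ B ^ 2 * (u ^ 2 + w) * Real.log y :=
      mul_le_mul_of_nonneg_left (by linarith) (by positivity)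
    nlinarith
  have hx1 : 1 < x := by linarith
  have hx0 : 0 < x := by linarith
  have hlxy : Real.log y ≤ Real.log x := by
    apply Real.log_le_log hy0
    rw [hx, hy]
    have h1 : B * (u + w) ≤ B ^ 2 * (u ^ 2 + w) := by
      have h2 : B ≤ B ^ 2 := by nlinarith
      exact mul_le_mul h2 hvuw (by linarith) (by positivity)
    have h3 : B ^ 2 * (u ^ 2 + w) * 1 ≤ B ^ 2 * (u ^ 2 + w) * Real.log y :=
      mul_le_mul_of_nonneg_left (by linarith) (by positivity)
    linarith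
  have hlx5 : Real.log x ≤ 5 * Real.log y := by
    have h1 : x ≤ y ^ 5 := by
      have h2 : u ^ 2 + w ≤ (u + w) ^ 2 := by nlinarith
      have h3 : Real.log y ≤ y := (Real.log_le_sub_one_of_pos hy0).trans (by linarith)
      have h4 : B ^ 2 * (u ^ 2 + w) ≤ y ^ 2 := by
        rw [hy, mul_pow]
        exact mul_le_mul_of_nonneg_left h2 (by positivity)
      calc x = B ^ 2 * (u ^ 2 + w) * Real.log y := hx
        _ ≤ y ^ 2 * y := mul_le_mul h4 h3 (by linarith) (by positivity)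
        _ = y ^ 3 := by ring
        _ ≤ y ^ 5 := pow_le_pow_right₀ (by linarith) (by norm_num)
    have h5 := Real.log_le_log hx0 h1
    rw [Real.log_pow] at h5
    exact_mod_cast h5
  obtain ⟨c1, c2⟩ := hX x (hB2.trans hBx)
  -- the hypotheses of `coreW`
  have hxe : 64 * e ^ 2 ≤ x * Real.log x := by
    have h1 : x * Real.log y ≤ x * Real.log x := mul_le_mul_of_nonneg_left hlxy hx0.le
    refine le_trans ?_ h1
    rw [he, hx]
    have h2 : 1600 * C ^ 2 ≤ B ^ 2 := by nlinarith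
    have h3 : 1600 * C ^ 2 * u ^ 2 ≤ B ^ 2 * (u ^ 2 + w) :=
      mul_le_mul h2 (by linarith) (by positivity) (by positivity)
    have h4 : 1600 * C ^ 2 * u ^ 2 * Real.log y ^ 2 ≤ B ^ 2 * (u ^ 2 + w) * Real.log y ^ 2 :=
      mul_le_mul_of_nonneg_right h3 (by positivity)
    calc 64 * (5 * C * u * Real.log y) ^ 2 = 1600 * C ^ 2 * u ^ 2 * Real.log y ^ 2 := by ring
      _ ≤ B ^ 2 * (u ^ 2 + w) * Real.log y ^ 2 := h4
      _ = B ^ 2 * (u ^ 2 + w) * Real.log y * Real.log y := by ring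
  have hwx : w * Real.log x ≤ x / 4 := by
    have h1 : w * Real.log x ≤ w * (5 * Real.log y) := mul_le_mul_of_nonneg_left hlx5 hw0
    refine h1.trans ?_
    rw [hx]
    have h2 : 20 * w ≤ B ^ 2 * (u ^ 2 + w) := by
      have h3 : (20 : ℝ) ≤ B ^ 2 := by nlinarith
      exact mul_le_mul h3 (by nlinarith) hw0 (by positivity)
    have h4 : 20 * w * Real.log y ≤ B ^ 2 * (u ^ 2 + w) * Real.log y :=
      mul_le_mul_of_nonneg_right h2 (by linarith)
    linarith
  have hth := QW_theta x hx1.le W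
  have hcore : Real.log x ^ 2 / (1024 * e * x) ≤ max (m + η) 0 := by
    refine coreW (th := ∑ p ∈ QW x W, Real.log p) (s := ((QW x W).card : ℝ))
      (P := ∑ p ∈ QW x W, (p : ℝ)) he1 hx1 (le_max_right _ _) (hlx5.trans hely) hxe ?_
      (Nat.cast_nonneg _) ((QW_card_le x W).trans c2) (QW_log_mul x hx1.le W)
      (Finset.sum_nonneg fun _ _ => Nat.cast_nonneg _) (QW_sum x hx1.le W) ?_
    · linarith
    · have hth0 : 0 ≤ ∑ p ∈ QW x W, Real.log p := by linarith
      have hT0 : 0 ≤ (∑ p ∈ QW x W, Real.log p) / e := by positivity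
      have h1 := hmain ((∑ p ∈ QW x W, Real.log p) / e) hT0 (QW x W) (fun p hp =>
        ⟨(Finset.mem_filter.1 (Finset.mem_filter.1 hp).1).2, (Finset.mem_filter.1 hp).2⟩)
      refine h1.trans (add_le_add ?_ ?_)
      · exact mul_le_mul_of_nonneg_left hEe (by positivity)
      · refine mul_le_mul_of_nonneg_left (le_max_left _ _) ?_
        have hP0 : (0 : ℝ) ≤ ∑ p ∈ QW x W, (p : ℝ) :=
          Finset.sum_nonneg fun _ _ => Nat.cast_nonneg _
        positivity
  have hv0 : 0 < u * (u ^ 2 + w) := by positivity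
  have hlow : 1 / (5120 * C * B ^ 2) / (u * (u ^ 2 + w)) ≤ m + η := by
    have h1 : 1 / (5120 * C * B ^ 2) / (u * (u ^ 2 + w)) ≤ Real.log x ^ 2 / (1024 * e * x) := by
      rw [div_div, div_le_div_iff₀ (by positivity) (by positivity), one_mul]
      have h2 : 1024 * e * x = 5120 * C * B ^ 2 * (u * (u ^ 2 + w)) * Real.log y ^ 2 := by
        rw [he, hx]; ring
      have h3 : Real.log y ^ 2 ≤ Real.log x ^ 2 := pow_le_pow_left₀ (by linarith) hlxy 2
      rw [h2]
      have h4 : 5120 * C * B ^ 2 * (u * (u ^ 2 + w)) * Real.log y ^ 2 ≤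
          5120 * C * B ^ 2 * (u * (u ^ 2 + w)) * Real.log x ^ 2 :=
        mul_le_mul_of_nonneg_left h3 (by positivity)
      linarith
    have h3 : 0 < 1 / (5120 * C * B ^ 2) / (u * (u ^ 2 + w)) := by positivity
    rcases le_or_gt (m + η) 0 with h4 | h4
    · rw [max_eq_right h4] at hcore
      linarith
    · rw [max_eq_left h4.le] at hcore
      exact h1.trans hcore
  have hη2 : η ≤ 1 / (10240 * C * B ^ 2) / (u * (u ^ 2 + w)) := by
    refine hη.trans ?_
    rw [div_div, le_div_iff₀ (by positivity)]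
    have h1 : u ^ 2 * (u ^ 2 + w) ≤ 2 * (u + w) ^ 4 := by
      have h2 : u ^ 2 ≤ (u + w) ^ 2 := pow_le_pow_left₀ hu0.le (by linarith) 2
      have h3 : u ^ 2 + w ≤ 2 * (u + w) ^ 2 := by nlinarith
      calc u ^ 2 * (u ^ 2 + w) ≤ (u + w) ^ 2 * (2 * (u + w) ^ 2) :=
            mul_le_mul h2 h3 (by positivity) (by positivity)
        _ = 2 * (u + w) ^ 4 := by ring
    have h4 : C * (y ^ 4)⁻¹ * u * (10240 * C * B ^ 2 * (u * (u ^ 2 + w))) =
        10240 * C ^ 2 * (u ^ 2 * (u ^ 2 + w)) / (B ^ 2 * (u + w) ^ 4) := by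
      rw [hy]
      field_simp
    rw [h4, div_le_one (by positivity)]
    have h5 : 10240 * C ^ 2 * (u ^ 2 * (u ^ 2 + w)) ≤ 10240 * C ^ 2 * (2 * (u + w) ^ 4) :=
      mul_le_mul_of_nonneg_left h1 (by positivity)
    have h6 : 20480 * C ^ 2 ≤ B ^ 2 := by nlinarith
    have h7 : 20480 * C ^ 2 * (u + w) ^ 4 ≤ B ^ 2 * (u + w) ^ 4 :=
      mul_le_mul_of_nonneg_right h6 (by positivity)
    linarith
  have hsum : 1 / (5120 * C * B ^ 2) / (u * (u ^ 2 + w)) =
      2 * (1 / (10240 * C * B ^ 2) / (u * (u ^ 2 + w))) := by field_simp; norm_num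
  rw [hsum] at hlow
  linarith

end H90.LB
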