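import Pool.Agent.H90.LB.NumW

/-!
# LBA, block N': the choice of the parameters when the energy of the powers depends on the prime
-/

set_option autoImplicit false

namespace H90.LB

/-- `numbersW` with the hypothesis only for `ε ≤ 1 / 4` and the primes `≤ 1 / ε` -/
theorem numbersG (C : ℝ) (hC : 1 ≤ C) : ∃ c : ℝ, 0 < c ∧ ∀ L m : ℝ, 0 ≤ L → 0 < m → m ≤ 1 →
    ∀ W : Finset ℕ,
    (∀ ε : ℝ, 0 < ε → ε ≤ 1 / 4 → ∃ E η : ℝ, η ≤ C * ε * (1 + L) ∧
      E ≤ C * (1 + L) * (Real.log (1 / ε) + 2 * m) ∧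
      ∀ T : ℝ, 0 ≤ T → ∀ Q : Finset ℕ, (∀ p ∈ Q, p.Prime ∧ p ∉ W ∧ (p : ℝ) ≤ 1 / ε) →
        2 * T * ∑ p ∈ Q, Real.log p ≤ (T ^ 2 + Q.card) * E +
          4 * (T + Q.card) * (∑ p ∈ Q, (p : ℝ)) * (m + η)) →
    c / ((1 + L) * ((1 + L) ^ 2 + W.card)) ≤ m := by
  obtain ⟨X, hX⟩ := cheb
  set B : ℝ := max (Real.exp 2) (max X (1600 * C ^ 2)) with hB
  have hB1 : Real.exp 2 ≤ B := le_max_left _ _
  have hB2 : X ≤ B := (le_max_left _ _).trans (le_max_right _ _)
  have hB3 : 1600 * C ^ 2 ≤ B := (le_max_right _ _).trans (le_max_right _ _)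
  have hB0 : 0 < B := (Real.exp_pos _).trans_le hB1
  have hlB2 : 2 ≤ Real.log B := by rwa [Real.le_log_iff_exp_le hB0]
  have hC0 : 0 < C := by linarith
  have hCC : 1 ≤ C ^ 2 := one_le_pow₀ hC
  have hB4 : 1600 ≤ B := by linarith
  refine ⟨1 / (10240 * C * B ^ 2), by positivity, ?_⟩
  intro L m hL hm hm1 W h
  set u : ℝ := 1 + L with hu
  set w : ℝ := (W.card : ℝ) with hw
  have hu1 : 1 ≤ u := by rw [hu]; linarith
  have hu0 : 0 < u := by linarith
  have hw0 : 0 ≤ w := Nat.cast_nonneg _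
  have huw : 1 ≤ u + w := by linarith
  have huu : u ≤ u ^ 2 := by nlinarith
  set y : ℝ := B * (u + w) with hy
  have hy0 : 0 < y := by positivity
  have hly : Real.log y = Real.log B + Real.log (u + w) :=
    Real.log_mul hB0.ne' (by positivity)
  have hluw : 0 ≤ Real.log (u + w) := Real.log_nonneg huw
  have hBy : B ≤ y := by rw [hy]; nlinarith
  have hy2 : 2 ≤ y := by linarith
  have hε : (y ^ 4)⁻¹ ≤ 1 / 4 := by
    rw [inv_le_comm₀ (by positivity) (by norm_num)]
    have : y ^ 1 ≤ y ^ 4 := pow_le_pow_right₀ (by linarith) (by norm_num)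
    norm_num
    linarith
  obtain ⟨E, η, hη, hE, hmain⟩ := h (y ^ 4)⁻¹ (by positivity) hε
  have hlog : Real.log (1 / (y ^ 4)⁻¹) = 4 * Real.log y := by
    rw [one_div, inv_inv, Real.log_pow]; norm_num
  rw [hlog] at hE
  set e : ℝ := 5 * C * u * Real.log y with he
  have hly2 : 2 ≤ Real.log y := by linarith
  have hCu : 1 ≤ C * u := by nlinarith
  have hEe : E ≤ e := by
    refine hE.trans ?_
    rw [he]
    have h1 : 4 * Real.log y + 2 * m ≤ 5 * Real.log y := by linarith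
    have h2 : C * u * (4 * Real.log y + 2 * m) ≤ C * u * (5 * Real.log y) :=
      mul_le_mul_of_nonneg_left h1 (by positivity)
    linarith
  have hely : 5 * Real.log y ≤ e := by
    rw [he]
    have : 1 * (5 * Real.log y) ≤ C * u * (5 * Real.log y) :=
      mul_le_mul_of_nonneg_right hCu (by linarith)
    linarith
  have he1 : 1 ≤ e := by linarith
  have he0 : 0 < e := by linarith
  set x : ℝ := B ^ 2 * (u ^ 2 + w) * Real.log y with hx
  have hv1 : 1 ≤ u ^ 2 + w := by linarith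
  have hvuw : u + w ≤ u ^ 2 + w := by linarith
  have hBx : B ≤ x := by
    rw [hx]
    have h1 : B * 1 ≤ B * B := mul_le_mul_of_nonneg_left (by linarith) hB0.le
    have h2 : B ^ 2 * 1 ≤ B ^ 2 * (u ^ 2 + w) := mul_le_mul_of_nonneg_left hv1 (by positivity)
    have h3 : B ^ 2 * (u ^ 2 + w) * 1 ≤ B ^ 2 * (u ^ 2 + w) * Real.log y :=
      mul_le_mul_of_nonneg_left (by linarith) (by positivity)
    nlinarith
  have hx1 : 1 < x := by linarith
  have hx0 : 0 < x := by linarith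
  have hlxy : Real.log y ≤ Real.log x := by
    apply Real.log_le_log hy0
    rw [hx, hy]
    have h1 : B * (u + w) ≤ B ^ 2 * (u ^ 2 + w) := by
      have h2 : B ≤ B ^ 2 := by nlinarith
      exact mul_le_mul h2 hvuw (by linarith) (by positivity)
    have h3 : B ^ 2 * (u ^ 2 + w) * 1 ≤ B ^ 2 * (u ^ 2 + w) * Real.log y :=
      mul_le_mul_of_nonneg_left (by linarith) (by positivity)
    linarith
  have hxy3 : x ≤ y ^ 3 := by
    have h2 : u ^ 2 + w ≤ (u + w) ^ 2 := by nlinarith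
    have h3 : Real.log y ≤ y := (Real.log_le_sub_one_of_pos hy0).trans (by linarith)
    have h4 : B ^ 2 * (u ^ 2 + w) ≤ y ^ 2 := by
      rw [hy, mul_pow]
      exact mul_le_mul_of_nonneg_left h2 (by positivity)
    calc x = B ^ 2 * (u ^ 2 + w) * Real.log y := hx
      _ ≤ y ^ 2 * y := mul_le_mul h4 h3 (by linarith) (by positivity)
      _ = y ^ 3 := by ring
  have hxy4 : x ≤ 1 / (y ^ 4)⁻¹ := by
    rw [one_div, inv_inv]
    exact hxy3.trans (pow_le_pow_right₀ (by linarith) (by norm_num))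
  have hlx5 : Real.log x ≤ 5 * Real.log y := by
    have h1 : x ≤ y ^ 5 := hxy3.trans (pow_le_pow_right₀ (by linarith) (by norm_num))
    have h5 := Real.log_le_log hx0 h1
    rw [Real.log_pow] at h5
    exact_mod_cast h5
  obtain ⟨c1, c2⟩ := hX x (hB2.trans hBx)
  -- the hypotheses of `coreW`
  have hxe : 64 * e ^ 2 ≤ x * Real.log x := by
    have h1 : x * Real.log y ≤ x * Real.log x := mul_le_mul_of_nonneg_left hlxy hx0.le
    refine le_trans ?_ h1
    rw [he, hx]
    have h2 : 1600 * C ^ 2 ≤ B ^ 2 := by nlinarith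
    have h3 : 1600 * C ^ 2 * u ^ 2 ≤ B ^ 2 * (u ^ 2 + w) :=
      mul_le_mul h2 (by linarith) (by positivity) (by positivity)
    have h4 : 1600 * C ^ 2 * u ^ 2 * Real.log y ^ 2 ≤ B ^ 2 * (u ^ 2 + w) * Real.log y ^ 2 :=
      mul_le_mul_of_nonneg_right h3 (by positivity)
    calc 64 * (5 * C * u * Real.log y) ^ 2 = 1600 * C ^ 2 * u ^ 2 * Real.log y ^ 2 := by ring
      _ ≤ B ^ 2 * (u ^ 2 + w) * Real.log y ^ 2 := h4
      _ = B ^ 2 * (u ^ 2 + w) * Real.log y * Real.log y := by ring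
  have hwx : w * Real.log x ≤ x / 4 := by
    have h1 : w * Real.log x ≤ w * (5 * Real.log y) := mul_le_mul_of_nonneg_left hlx5 hw0
    refine h1.trans ?_
    rw [hx]
    have h2 : 20 * w ≤ B ^ 2 * (u ^ 2 + w) := by
      have h3 : (20 : ℝ) ≤ B ^ 2 := by nlinarith
      exact mul_le_mul h3 (by nlinarith) hw0 (by positivity)
    have h4 : 20 * w * Real.log y ≤ B ^ 2 * (u ^ 2 + w) * Real.log y :=
      mul_le_mul_of_nonneg_right h2 (by linarith)
    linarith
  have hth := QW_theta x hx1.le W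
  have hcore : Real.log x ^ 2 / (1024 * e * x) ≤ max (m + η) 0 := by
    refine coreW (th := ∑ p ∈ QW x W, Real.log p) (s := ((QW x W).card : ℝ))
      (P := ∑ p ∈ QW x W, (p : ℝ)) he1 hx1 (le_max_right _ _) (hlx5.trans hely) hxe ?_
      (Nat.cast_nonneg _) ((QW_card_le x W).trans c2) (QW_log_mul x hx1.le W)
      (Finset.sum_nonneg fun _ _ => Nat.cast_nonneg _) (QW_sum x hx1.le W) ?_
    · linarith
    · have hth0 : 0 ≤ ∑ p ∈ QW x W, Real.log p := by linarith
      have hT0 : 0 ≤ (∑ p ∈ QW x W, Real.log p) / e := by positivity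
      have h1 := hmain ((∑ p ∈ QW x W, Real.log p) / e) hT0 (QW x W) (fun p hp =>
        ⟨(Finset.mem_filter.1 (Finset.mem_filter.1 hp).1).2, (Finset.mem_filter.1 hp).2,
          ((Nat.cast_le.2 (Finset.mem_Ioc.1 (Finset.mem_filter.1 (Finset.mem_filter.1 hp).1).1).2).trans
            (Nat.floor_le (by linarith))).trans hxy4⟩)
      refine h1.trans (add_le_add ?_ ?_)
      · exact mul_le_mul_of_nonneg_left hEe (by positivity)
      · refine mul_le_mul_of_nonneg_left (le_max_left _ _) ?_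
        have hP0 : (0 : ℝ) ≤ ∑ p ∈ QW x W, (p : ℝ) :=
          Finset.sum_nonneg fun _ _ => Nat.cast_nonneg _
        positivity
  have hv0 : 0 < u * (u ^ 2 + w) := by positivity
  have hlow : 1 / (5120 * C * B ^ 2) / (u * (u ^ 2 + w)) ≤ m + η := by
    have h1 : 1 / (5120 * C * B ^ 2) / (u * (u ^ 2 + w)) ≤ Real.log x ^ 2 / (1024 * e * x) := by
      rw [div_div, div_le_div_iff₀ (by positivity) (by positivity), one_mul]
      have h2 : 1024 * e * x = 5120 * C * B ^ 2 * (u * (u ^ 2 + w)) * Real.log y ^ 2 := by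
        rw [he, hx]; ring
      have h3 : Real.log y ^ 2 ≤ Real.log x ^ 2 := pow_le_pow_left₀ (by linarith) hlxy 2
      rw [h2]
      have h4 : 5120 * C * B ^ 2 * (u * (u ^ 2 + w)) * Real.log y ^ 2 ≤
          5120 * C * B ^ 2 * (u * (u ^ 2 + w)) * Real.log x ^ 2 :=
        mul_le_mul_of_nonneg_left h3 (by positivity)
      linarith
    have h3 : 0 < 1 / (5120 * C * B ^ 2) / (u * (u ^ 2 + w)) := by positivity
    rcases le_or_gt (m + η) 0 with h4 | h4
    · rw [max_eq_right h4] at hcore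
      linarith
    · rw [max_eq_left h4.le] at hcore
      exact h1.trans hcore
  have hη2 : η ≤ 1 / (10240 * C * B ^ 2) / (u * (u ^ 2 + w)) := by
    refine hη.trans ?_
    rw [div_div, le_div_iff₀ (by positivity)]
    have h1 : u ^ 2 * (u ^ 2 + w) ≤ 2 * (u + w) ^ 4 := by
      have h2 : u ^ 2 ≤ (u + w) ^ 2 := pow_le_pow_left₀ hu0.le (by linarith) 2
      have h3 : u ^ 2 + w ≤ 2 * (u + w) ^ 2 := by nlinarith
      calc u ^ 2 * (u ^ 2 + w) ≤ (u + w) ^ 2 * (2 * (u + w) ^ 2) :=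
            mul_le_mul h2 h3 (by positivity) (by positivity)
        _ = 2 * (u + w) ^ 4 := by ring
    have h4 : C * (y ^ 4)⁻¹ * u * (10240 * C * B ^ 2 * (u * (u ^ 2 + w))) =
        10240 * C ^ 2 * (u ^ 2 * (u ^ 2 + w)) / (B ^ 2 * (u + w) ^ 4) := by
      rw [hy]
      field_simp
    rw [h4, div_le_one (by positivity)]
    have h5 : 10240 * C ^ 2 * (u ^ 2 * (u ^ 2 + w)) ≤ 10240 * C ^ 2 * (2 * (u + w) ^ 4) :=
      mul_le_mul_of_nonneg_left h1 (by positivity)
    have h6 : 20480 * C ^ 2 ≤ B ^ 2 := by nlinarith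
    have h7 : 20480 * C ^ 2 * (u + w) ^ 4 ≤ B ^ 2 * (u + w) ^ 4 :=
      mul_le_mul_of_nonneg_right h6 (by positivity)
    linarith
  have hsum : 1 / (5120 * C * B ^ 2) / (u * (u ^ 2 + w)) =
      2 * (1 / (10240 * C * B ^ 2) / (u * (u ^ 2 + w))) := by field_simp; norm_num
  rw [hsum] at hlow
  linarith

/-- block N' -/
theorem numbersA (C : ℝ) (hC : 1 ≤ C) : ∃ c : ℝ, 0 < c ∧ ∀ L m : ℝ, 0 ≤ L → 0 < m → m ≤ 1 →
    (∀ ε : ℝ, 0 < ε → ε ≤ 1 / 4 → ∀ T : ℝ, 0 ≤ T → ∀ Q : Finset ℕ, (∀ p ∈ Q, p.Prime) →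
      2 * T * ∑ p ∈ Q, Real.log p ≤ T ^ 2 * (C * (1 + L) * (Real.log (1 / ε) + 2 * m)) +
        ∑ p ∈ Q, C * (1 + L) * (Real.log (p / ε) + 2 * m) +
        4 * (T + Q.card) * (∑ p ∈ Q, (p : ℝ)) * (m + C * ε * (1 + L))) →
    c / (1 + L) ^ 3 ≤ m := by
  obtain ⟨c, hc, h⟩ := numbersG (2 * C) (by linarith)
  refine ⟨c, hc, ?_⟩
  intro L m hL hm hm1 hmain
  have h1 := h L m hL hm hm1 ∅ ?_
  · rw [Finset.card_empty, Nat.cast_zero, add_zero] at h1
    refine le_trans (le_of_eq ?_) h1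
    congr 1
    ring
  · intro ε hε hε4
    have hlog : 0 ≤ Real.log (1 / ε) := by
      apply Real.log_nonneg
      rw [le_div_iff₀ hε]
      linarith
    have hCL : 0 ≤ C * (1 + L) := by positivity
    refine ⟨2 * C * (1 + L) * (Real.log (1 / ε) + 2 * m), C * ε * (1 + L), ?_, le_rfl, ?_⟩
    · have : 0 ≤ C * ε * (1 + L) := by positivity
      linarith
    · intro T hT Q hQ
      refine (hmain ε hε hε4 T hT Q (fun p hp => (hQ p hp).1)).trans ?_
      have h2 : T ^ 2 * (C * (1 + L) * (Real.log (1 / ε) + 2 * m)) ≤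
          T ^ 2 * (2 * C * (1 + L) * (Real.log (1 / ε) + 2 * m)) := by
        refine mul_le_mul_of_nonneg_left ?_ (by positivity)
        have h3 : 0 ≤ C * (1 + L) * (Real.log (1 / ε) + 2 * m) := by positivity
        linarith
      have h4 : ∑ p ∈ Q, C * (1 + L) * (Real.log (p / ε) + 2 * m) ≤
          Q.card * (2 * C * (1 + L) * (Real.log (1 / ε) + 2 * m)) := by
        rw [← nsmul_eq_mul, ← Finset.sum_const]
        refine Finset.sum_le_sum fun p hp => ?_
        have hp0 : (0 : ℝ) < p := by exact_mod_cast (hQ p hp).1.pos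
        have h5 : Real.log (p / ε) ≤ 2 * Real.log (1 / ε) := by
          rw [div_eq_mul_one_div, Real.log_mul hp0.ne' (by positivity)]
          have := Real.log_le_log hp0 (hQ p hp).2.2
          linarith
        have h6 : C * (1 + L) * (Real.log (p / ε) + 2 * m) ≤
            C * (1 + L) * (2 * (Real.log (1 / ε) + 2 * m)) := by
          refine mul_le_mul_of_nonneg_left ?_ hCL
          linarith
        linarith
      have h7 : T ^ 2 * (2 * C * (1 + L) * (Real.log (1 / ε) + 2 * m)) +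
          Q.card * (2 * C * (1 + L) * (Real.log (1 / ε) + 2 * m)) =
          (T ^ 2 + Q.card) * (2 * C * (1 + L) * (Real.log (1 / ε) + 2 * m)) := by ring
      linarith

end H90.LB
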