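import Pool.Agent.H90.LB.Red

/-!
# LB: reduction to polynomials which are not polynomials in `X ^ p`, with the mean of `log⁺ |f|` on the unit circle
-/

set_option autoImplicit false

namespace H90.LB

open Polynomial H91.LK

/-- the mean over the unit circle is invariant under `z ↦ z ^ p` -/
theorem avg_pow {F : ℂ → ℝ} (hF : Continuous F) {p : ℕ} (hp : 0 < p) :
    Real.circleAverage (fun z => F (z ^ p)) 0 1 = Real.circleAverage F 0 1 := by
  rw [Real.circleAverage_def, Real.circleAverage_def]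
  congr 1
  set G : ℝ → ℝ := fun θ => F (circleMap 0 1 θ) with hG
  have hper : Function.Periodic G (2 * Real.pi) := by
    intro θ
    rw [hG]
    simp only
    rw [periodic_circleMap 0 1 θ]
  have hcont : Continuous G := hF.comp (continuous_circleMap 0 1)
  have h1 : ∀ θ : ℝ, F (circleMap 0 1 θ ^ p) = G (p * θ) := by
    intro θ
    rw [hG]
    simp only
    congr 1
    rw [circleMap, circleMap]
    simp only [Complex.ofReal_one, one_mul, zero_add]
    rw [← Complex.exp_nat_mul]
    congr 1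
    push_cast
    ring
  have h2 : ∫ θ in (0 : ℝ)..2 * Real.pi, G (p * θ) = ∫ θ in (0 : ℝ)..2 * Real.pi, G θ := by
    have hp0 : (p : ℝ) ≠ 0 := by exact_mod_cast hp.ne'
    rw [intervalIntegral.integral_comp_mul_left G hp0, mul_zero]
    have h3 := hper.intervalIntegral_add_zsmul_eq (p : ℤ) 0
      (fun t₁ t₂ => hcont.intervalIntegrable t₁ t₂)
    rw [zero_add, zero_add, zsmul_eq_mul, zsmul_eq_mul, Int.cast_natCast] at h3
    rw [h3, smul_eq_mul, ← mul_assoc, inv_mul_cancel₀ hp0, one_mul]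
  rw [← h2]
  exact intervalIntegral.integral_congr fun θ _ => h1 θ

theorem avg_expand {p : ℕ} (hp : 0 < p) (h : ℤ[X]) :
    Real.circleAverage
      (fun z => Real.posLog ‖((expand ℤ p h).map (Int.castRingHom ℂ)).eval z‖) 0 1 =
    Real.circleAverage (fun z => Real.posLog ‖(h.map (Int.castRingHom ℂ)).eval z‖) 0 1 := by
  have hc : Continuous fun z : ℂ => Real.posLog ‖(h.map (Int.castRingHom ℂ)).eval z‖ :=
    Real.continuous_posLog.comp ((h.map (Int.castRingHom ℂ)).continuous.norm)
  rw [← avg_pow hc hp]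
  congr 1
  ext z
  rw [map_expand, expand_eval]

theorem red_existsL (f : ℤ[X]) (hf : Irreducible f) (hd : 0 < f.natDegree) :
    ∃ g : ℤ[X], Irreducible g ∧ 0 < g.natDegree ∧ g.natDegree ≤ f.natDegree ∧ lm g = lm f ∧
      Real.circleAverage (fun z => Real.posLog ‖(g.map (Int.castRingHom ℂ)).eval z‖) 0 1 =
        Real.circleAverage (fun z => Real.posLog ‖(f.map (Int.castRingHom ℂ)).eval z‖) 0 1 ∧
      (∀ B : ℝ, (∀ z : ℂ, ‖z‖ = 1 → ‖(f.map (Int.castRingHom ℂ)).eval z‖ ≤ B) →
        ∀ z : ℂ, ‖z‖ = 1 → ‖(g.map (Int.castRingHom ℂ)).eval z‖ ≤ B) ∧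
      ∀ p : ℕ, p.Prime → ∀ h : ℤ[X], g ≠ expand ℤ p h := by
  induction hn : f.natDegree using Nat.strong_induction_on generalizing f with
  | _ n ih =>
    by_cases hex : ∃ p : ℕ, p.Prime ∧ ∃ h : ℤ[X], f = expand ℤ p h
    · obtain ⟨p, hp, h, rfl⟩ := hex
      have h1 : Irreducible h := of_irreducible_expand hp.ne_zero hf
      rw [natDegree_expand] at hn hd
      have h2 : 0 < h.natDegree := Nat.pos_of_mul_pos_right hd
      have h3 : h.natDegree < n := by
        rw [← hn]
        exact lt_mul_of_one_lt_right h2 hp.one_lt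
      obtain ⟨g, g1, g2, g3, g4, gL, g5, g6⟩ := ih h.natDegree h3 h h1 h2 rfl
      refine ⟨g, g1, g2, g3.trans h3.le, by rw [g4, red_lm_expand hp.pos],
        by rw [gL, avg_expand hp.pos], ?_, g6⟩
      intro B hB
      refine g5 B fun z hz => ?_
      obtain ⟨w, hw⟩ := IsAlgClosed.exists_pow_nat_eq z hp.pos
      have hw1 : ‖w‖ = 1 := by
        have h4 : ‖w‖ ^ p = 1 := by rw [← norm_pow, hw, hz]
        exact (pow_eq_one_iff_of_nonneg (norm_nonneg _) hp.ne_zero).1 h4
      have h5 := hB w hw1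
      rwa [map_expand, expand_eval, hw] at h5
    · exact ⟨f, hf, hd, hn.le, rfl, rfl, fun B hB => hB, fun p hp h he => hex ⟨p, hp, h, he⟩⟩

end H90.LB
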