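import Pool.Agent.H25.Arith.Disc
import Pool.Agent.H25.Arith.OrbSum

/-!
# LB: removing the degenerate primes by a twist with a root of unity

Let `α` be an element of a Galois number field and `W` a set of primes `p` such that some conjugate `x ≠ α` of `α` has
`x ^ p = α ^ p`, but fewer than `p` conjugates of `α` have this property. Then there is `b` with `b ^ N = α ^ N` for an
`N > 0` and `2 ^ #W * #(orb b) ≤ #(orb α)`: so `α` is a root of unity times an element `b` of degree at most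
`deg α / 2 ^ #W`, and Mahler's measure of `α` is at least the `2 ^ #W`-th power of the measure of `b`.

PROOF. For `p ∈ W` let `S_p = {s | (s α) ^ p = α ^ p}` and let `Φ` be the product of the `k < p` conjugates `x` with
`x ^ p = α ^ p`; `u k + v p = 1`; `y_p = Φ ^ u * (α ^ p) ^ v` is fixed by `S_p` and `y_p ^ p = α ^ p` (`tw_block`). An
`s ∈ S_p` fixes `w = t α / α` for `t ∈ S_q`, `q ≠ p` (`tw_key`): `ρ = (s t) (t s)⁻¹` is trivial on the roots of unity, so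
`ρ ^ p α = (s w / w) ^ p α`, `ρ ^ p ∈ S_q` fixes `y_q` and `y_q / α`, hence `α`; so `(s w / w) ^ p = 1 = (s w / w) ^ q`.
So `b = α ∏ y_p / α` is fixed by all the `S_p` and the products of the `s_p ∈ S_p`, `s_p α ≠ α`, over the subsets
of `W` give `2 ^ #W` conjugates of `α` in each fibre of `g α ↦ g b`.
-/

set_option autoImplicit false

namespace H90.LB

open H25.Arith

variable {K : Type*} [Field K] [NumberField K]

/-- automorphisms commute on the roots of unity -/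
theorem tw_comm {n : ℕ} (hn : 0 < n) (s t : K ≃ₐ[ℚ] K) {ξ : K} (hξ : ξ ^ n = 1) :
    s (t ξ) = t (s ξ) := by
  have hnz : NeZero n := ⟨hn.ne'⟩
  have h0 : ξ ≠ 0 := by
    rintro rfl
    rw [zero_pow hn.ne'] at hξ
    exact zero_ne_one hξ
  have key : ∀ g : K ≃ₐ[ℚ] K, ∃ m : ℤ, g ξ = ξ ^ m := by
    intro g
    obtain ⟨m, hm⟩ := rootsOfUnity.integer_power_of_ringEquiv' n (g : K ≃+* K)
    refine ⟨m, ?_⟩
    have h1 := hm (Units.mk0 ξ h0) (by
      rw [mem_rootsOfUnity]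
      ext
      simpa using hξ)
    simpa using h1
  obtain ⟨a, ha⟩ := key s
  obtain ⟨b, hb⟩ := key t
  rw [hb, ha, map_zpow₀, map_zpow₀, ha, hb, ← zpow_mul, ← zpow_mul, mul_comm]

open Classical in
/-- the block product -/
theorem tw_block (α : K) (hα : α ≠ 0) (p : ℕ) (hp : p.Prime)
    (hlt : ((orb α).filter fun x => x ^ p = α ^ p).card < p) :
    ∃ y : K, y ^ p = α ^ p ∧ ∀ s : K ≃ₐ[ℚ] K, (s α) ^ p = α ^ p → s y = y := by
  set Bl := (orb α).filter fun x => x ^ p = α ^ p with hBl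
  have hαB : α ∈ Bl := Finset.mem_filter.2 ⟨Disc.mem_orb.2 ⟨1, rfl⟩, rfl⟩
  have hk : 0 < Bl.card := Finset.card_pos.2 ⟨α, hαB⟩
  have hcop : Nat.Coprime Bl.card p := (Nat.coprime_of_lt_prime hk.ne' hlt hp).symm
  obtain ⟨u, v, huv⟩ : ∃ u v : ℤ, (Bl.card : ℤ) * u + p * v = 1 := by
    refine ⟨Nat.gcdA Bl.card p, Nat.gcdB Bl.card p, ?_⟩
    have h1 := Nat.gcd_eq_gcd_ab Bl.card p
    rw [Nat.Coprime.gcd_eq_one hcop] at h1
    push_cast at h1
    exact h1.symm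
  have hΦp : (∏ x ∈ Bl, x) ^ p = α ^ (p * Bl.card) := by
    rw [← Finset.prod_pow, Finset.prod_congr rfl (fun x hx => (Finset.mem_filter.1 hx).2),
      Finset.prod_const, ← pow_mul]
  refine ⟨(∏ x ∈ Bl, x) ^ u * (α ^ p) ^ v, ?_, ?_⟩
  · have h1 : ((∏ x ∈ Bl, x) ^ u) ^ p = ((∏ x ∈ Bl, x) ^ p) ^ u := by
      rw [← zpow_natCast, ← zpow_natCast, ← zpow_mul, ← zpow_mul, mul_comm]
    have h2 : ((α ^ p) ^ v) ^ p = ((α ^ p) ^ p) ^ v := by
      rw [← zpow_natCast ((α ^ p) ^ v), ← zpow_natCast (α ^ p) p, ← zpow_mul, ← zpow_mul, mul_comm]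
    rw [mul_pow, h1, h2, hΦp, ← pow_mul, ← zpow_natCast, ← zpow_natCast, ← zpow_mul, ← zpow_mul,
      ← zpow_add₀ hα, ← zpow_natCast]
    congr 1
    push_cast
    linear_combination (p : ℤ) * huv
  · intro s hs
    have h1 : s (∏ x ∈ Bl, x) = ∏ x ∈ Bl, x := by
      rw [map_prod]
      refine Finset.prod_bij' (fun x _ => s x) (fun x _ => s.symm x) ?_ ?_ ?_ ?_ ?_
      · intro x hx
        obtain ⟨hx1, hx2⟩ := Finset.mem_filter.1 hx
        exact Finset.mem_filter.2 ⟨Disc.map_mem_orb hx1 s, by rw [← map_pow, hx2, map_pow, hs]⟩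
      · intro x hx
        obtain ⟨hx1, hx2⟩ := Finset.mem_filter.1 hx
        refine Finset.mem_filter.2 ⟨Disc.map_mem_orb hx1 s.symm, ?_⟩
        rw [← map_pow, hx2, AlgEquiv.symm_apply_eq, map_pow, hs]
      · intro x _
        exact s.symm_apply_apply x
      · intro x _
        exact s.apply_symm_apply x
      · intro x _
        rfl
    rw [map_mul, map_zpow₀, map_zpow₀, h1, map_pow, hs]

/-- an automorphism which moves `α` by a `p`-th root of unity fixes the quotient `t α / α` if this is a `q`-th root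
of unity -/
theorem tw_key (α : K) (hα : α ≠ 0) {p q : ℕ} (hp : p.Prime) (hq : q.Prime) (hpq : p ≠ q)
    (y : K) (hy : y ^ q = α ^ q) (hyf : ∀ s : K ≃ₐ[ℚ] K, (s α) ^ q = α ^ q → s y = y)
    (s t : K ≃ₐ[ℚ] K) (hs : (s α) ^ p = α ^ p) (ht : (t α) ^ q = α ^ q) :
    s (t α / α) = t α / α := by
  have hpq0 : 0 < p * q := Nat.mul_pos hp.pos hq.pos
  have hy0 : y ≠ 0 := by
    rintro rfl
    rw [zero_pow hq.pos.ne'] at hy
    exact pow_ne_zero q hα hy.symm
  set w : K := t α / α with hw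
  set ζ : K := s α / α with hζ
  have hwq : w ^ q = 1 := by rw [hw, div_pow, ht, div_self (pow_ne_zero _ hα)]
  have hζp : ζ ^ p = 1 := by rw [hζ, div_pow, hs, div_self (pow_ne_zero _ hα)]
  have hw0 : w ≠ 0 := by
    rintro h
    rw [h, zero_pow hq.pos.ne'] at hwq
    exact zero_ne_one hwq
  have hζ0 : ζ ≠ 0 := by
    rintro h
    rw [h, zero_pow hp.pos.ne'] at hζp
    exact zero_ne_one hζp
  have htα : t α = w * α := by rw [hw, div_mul_cancel₀ _ hα]
  have hsα : s α = ζ * α := by rw [hζ, div_mul_cancel₀ _ hα]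
  have hwpq : w ^ (p * q) = 1 := by rw [mul_comm, pow_mul, hwq, one_pow]
  have hζpq : ζ ^ (p * q) = 1 := by rw [pow_mul, hζp, one_pow]
  set ρ : K ≃ₐ[ℚ] K := (s * t) * (t * s)⁻¹ with hρ
  have hρ1 : ∀ ξ : K, ξ ^ (p * q) = 1 → ρ ξ = ξ := by
    intro ξ hξ
    have h1 : ((t * s)⁻¹ ξ) ^ (p * q) = 1 := by rw [← map_pow, hξ, map_one]
    have h2 := tw_comm hpq0 s t h1
    have h3 : (t * s) ((t * s)⁻¹ ξ) = ξ := by
      rw [← AlgEquiv.mul_apply, mul_inv_cancel, AlgEquiv.one_apply]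
    rw [hρ, AlgEquiv.mul_apply, AlgEquiv.mul_apply, h2, ← AlgEquiv.mul_apply t s, h3]
  have hρ2 : ρ (t (s α)) = s (t α) := by
    have h3 : (t * s)⁻¹ ((t * s) α) = α := by
      rw [← AlgEquiv.mul_apply, inv_mul_cancel, AlgEquiv.one_apply]
    rw [hρ, AlgEquiv.mul_apply, ← AlgEquiv.mul_apply t s, h3, AlgEquiv.mul_apply]
  set κ : K := s w * ζ / (t ζ * w) with hκ
  have htζ0 : t ζ ≠ 0 := by
    rw [Ne, map_eq_zero_iff _ t.injective]
    exact hζ0
  have hρα : ρ α = κ * α := by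
    have h1 : t (s α) = t ζ * (w * α) := by rw [hsα, map_mul, htα]
    have h2 : s (t α) = s w * (ζ * α) := by rw [htα, map_mul, hsα]
    rw [h1, h2, map_mul, map_mul, hρ1 (t ζ) (by rw [← map_pow, hζpq, map_one]), hρ1 w hwpq] at hρ2
    rw [hκ, div_mul_eq_mul_div, eq_div_iff (mul_ne_zero htζ0 hw0)]
    linear_combination hρ2
  have hκpq : κ ^ (p * q) = 1 := by
    rw [hκ, div_pow, mul_pow, mul_pow, ← map_pow, ← map_pow, hwpq, hζpq]
    simp
  have hκp : κ ^ p = (s w / w) ^ p := by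
    have h1 : (t ζ) ^ p = 1 := by rw [← map_pow, hζp, map_one]
    rw [hκ, div_pow, mul_pow, mul_pow, h1, hζp, one_mul, mul_one, ← div_pow]
  have hpow : ∀ n : ℕ, (ρ ^ n) α = κ ^ n * α := by
    intro n
    induction n with
    | zero => simp
    | succ n ih =>
      rw [pow_succ', AlgEquiv.mul_apply, ih, map_mul, map_pow, hρ1 κ hκpq, hρα]
      ring
  have hfix : ∀ n : ℕ, ∀ ξ : K, ξ ^ (p * q) = 1 → (ρ ^ n) ξ = ξ := by
    intro n ξ hξ
    induction n with
    | zero => simp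
    | succ n ih => rw [pow_succ', AlgEquiv.mul_apply, ih, hρ1 ξ hξ]
  have h5 : (ρ ^ p) y = y := by
    refine hyf _ ?_
    rw [hpow, mul_pow, ← pow_mul, hκpq, one_mul]
  have h6 : (ρ ^ p) (y / α) = y / α := by
    refine hfix p _ ?_
    rw [mul_comm, pow_mul, div_pow, hy, div_self (pow_ne_zero _ hα), one_pow]
  have h7 : (ρ ^ p) α = α := by
    have h8 : α = y / (y / α) := by
      field_simp
    conv_lhs => rw [h8]
    rw [map_div₀, h5, h6, ← h8]
  have h9 : (s w / w) ^ p = 1 := by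
    rw [← hκp]
    rw [hpow] at h7
    exact mul_right_cancel₀ hα (by rw [h7, one_mul])
  have h10 : (s w / w) ^ q = 1 := by
    rw [div_pow, ← map_pow, hwq, map_one, div_one]
  have h11 : s w / w = 1 := by
    have := pow_gcd_eq_one.2 ⟨h9, h10⟩
    rwa [Nat.Coprime.gcd_eq_one ((Nat.coprime_primes hp hq).2 hpq), pow_one] at this
  exact (div_eq_one_iff_eq hw0).1 h11

open Classical in
/-- the twist: `2 ^ #W` conjugates of `α` over each conjugate of `b` -/
theorem exists_twist (α : K) (hα : α ≠ 0) (W : Finset ℕ)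
    (hW : ∀ p ∈ W, p.Prime ∧ (∃ x ∈ orb α, ∃ y ∈ orb α, x ≠ y ∧ x ^ p = y ^ p) ∧
      ((orb α).filter fun x => x ^ p = α ^ p).card < p) :
    ∃ (b : K) (N : ℕ), 0 < N ∧ b ^ N = α ^ N ∧ 2 ^ W.card * (orb b).card ≤ (orb α).card := by
  have hy : ∀ p : ℕ, ∃ y : K, p ∈ W → y ^ p = α ^ p ∧
      ∀ s : K ≃ₐ[ℚ] K, (s α) ^ p = α ^ p → s y = y := by
    intro p
    by_cases hp : p ∈ W
    · obtain ⟨y, h1, h2⟩ := tw_block α hα p (hW p hp).1 (hW p hp).2.2
      exact ⟨y, fun _ => ⟨h1, h2⟩⟩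
    · exact ⟨0, fun h => absurd h hp⟩
  choose y hy using hy
  have hs : ∀ p : ℕ, ∃ s : K ≃ₐ[ℚ] K, p ∈ W → s α ≠ α ∧ (s α) ^ p = α ^ p := by
    intro p
    by_cases hp : p ∈ W
    · obtain ⟨x, hx, z, hz, hne, hxz⟩ := (hW p hp).2.1
      obtain ⟨g, rfl⟩ := Disc.mem_orb.1 hx
      obtain ⟨h, rfl⟩ := Disc.mem_orb.1 hz
      refine ⟨g⁻¹ * h, fun _ => ⟨?_, ?_⟩⟩
      · intro he
        apply hne
        have h1 : g ((g⁻¹ * h) α) = h α := by
          rw [← AlgEquiv.mul_apply, mul_inv_cancel_left]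
        rw [← h1, he]
      · have h1 : g (((g⁻¹ * h) α) ^ p) = g (α ^ p) := by
          rw [map_pow, map_pow, ← AlgEquiv.mul_apply, mul_inv_cancel_left, hxz]
        exact g.injective h1
    · exact ⟨1, fun h => absurd h hp⟩
  choose s hs using hs
  have hpos : ∀ p ∈ W, 0 < p := fun p hp => (hW p hp).1.pos
  -- the roots of unity
  set z : ℕ → K := fun p => y p / α with hz
  set χ : ℕ → K := fun p => s p α / α with hχ
  have hyp : ∀ p ∈ W, y p ^ p = α ^ p := fun p hp => (hy p hp).1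
  have hyf : ∀ p ∈ W, ∀ t : K ≃ₐ[ℚ] K, (t α) ^ p = α ^ p → t (y p) = y p :=
    fun p hp => (hy p hp).2
  have hzp : ∀ p ∈ W, z p ^ p = 1 := by
    intro p hp
    rw [hz]
    simp only
    rw [div_pow, hyp p hp, div_self (pow_ne_zero _ hα)]
  have hχp : ∀ p ∈ W, χ p ^ p = 1 := by
    intro p hp
    rw [hχ]
    simp only
    rw [div_pow, (hs p hp).2, div_self (pow_ne_zero _ hα)]
  have hχ1 : ∀ p ∈ W, χ p ≠ 1 := by
    intro p hp h
    exact (hs p hp).1 ((div_eq_one_iff_eq hα).1 h)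
  have hsα : ∀ p, s p α = χ p * α := fun p => by rw [hχ]; simp only; rw [div_mul_cancel₀ _ hα]
  -- `S_p` fixes `χ q`
  have hfχ : ∀ p ∈ W, ∀ q ∈ W, p ≠ q → ∀ t : K ≃ₐ[ℚ] K, (t α) ^ p = α ^ p → t (χ q) = χ q := by
    intro p hp q hq hpq t ht
    exact tw_key α hα (hW p hp).1 (hW q hq).1 hpq (y q) (hyp q hq) (hyf q hq) t (s q) ht (hs q hq).2
  -- `z q` is a power of `χ q`
  have hzχ : ∀ q ∈ W, ∃ i : ℕ, z q = χ q ^ i := by
    intro q hq
    have hprim : IsPrimitiveRoot (χ q) q := by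
      refine IsPrimitiveRoot.iff_def _ _ |>.2 ⟨hχp q hq, fun l hl => ?_⟩
      by_contra hdv
      have hc : Nat.Coprime l q := ((Nat.Prime.coprime_iff_not_dvd (hW q hq).1).2 hdv).symm
      have := pow_gcd_eq_one.2 ⟨hl, hχp q hq⟩
      rw [Nat.Coprime.gcd_eq_one hc, pow_one] at this
      exact hχ1 q hq this
    have hnz : NeZero q := ⟨(hpos q hq).ne'⟩
    obtain ⟨i, -, hi⟩ := hprim.eq_pow_of_pow_eq_one (hzp q hq)
    exact ⟨i, hi.symm⟩
  have hfz : ∀ p ∈ W, ∀ q ∈ W, p ≠ q → ∀ t : K ≃ₐ[ℚ] K, (t α) ^ p = α ^ p → t (z q) = z q := by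
    intro p hp q hq hpq t ht
    obtain ⟨i, hi⟩ := hzχ q hq
    rw [hi, map_pow, hfχ p hp q hq hpq t ht]
  set b : K := α * ∏ p ∈ W, z p with hb
  have hfb : ∀ p ∈ W, ∀ t : K ≃ₐ[ℚ] K, (t α) ^ p = α ^ p → t b = b := by
    intro p hp t ht
    rw [hb, ← Finset.mul_prod_erase W z hp, ← mul_assoc]
    have h1 : α * z p = y p := by rw [hz]; simp only; rw [mul_div_cancel₀ _ hα]
    rw [h1, map_mul, hyf p hp t ht, map_prod]
    congr 1
    refine Finset.prod_congr rfl fun q hq => ?_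
    exact hfz p hp q (Finset.mem_of_mem_erase hq) (Finset.ne_of_mem_erase hq).symm t ht
  have hstab : ∀ t : K ≃ₐ[ℚ] K, t α = α → t b = b := by
    intro t ht
    rw [hb, map_mul, ht, map_prod]
    congr 1
    refine Finset.prod_congr rfl fun q hq => ?_
    rw [hz]
    simp only
    rw [map_div₀, ht, hyf q hq t (by rw [ht])]
  -- the subsets
  have hsub : ∀ T : Finset ℕ, T ⊆ W → ∃ t : K ≃ₐ[ℚ] K, t b = b ∧ t α = (∏ p ∈ T, χ p) * α := by
    intro T
    induction T using Finset.induction_on with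
    | empty => intro _; exact ⟨1, by simp⟩
    | insert p T hpT ih =>
      intro hT
      have hp : p ∈ W := hT (Finset.mem_insert_self _ _)
      obtain ⟨t, ht1, ht2⟩ := ih fun q hq => hT (Finset.mem_insert_of_mem hq)
      refine ⟨s p * t, ?_, ?_⟩
      · rw [AlgEquiv.mul_apply, ht1, hfb p hp _ (hs p hp).2]
      · rw [AlgEquiv.mul_apply, ht2, map_mul, map_prod, Finset.prod_insert hpT, hsα p]
        have h1 : ∏ q ∈ T, s p (χ q) = ∏ q ∈ T, χ q := by
          refine Finset.prod_congr rfl fun q hq => ?_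
          refine hfχ p hp q (hT (Finset.mem_insert_of_mem hq)) ?_ _ (hs p hp).2
          rintro rfl
          exact hpT hq
        rw [h1]
        ring
  -- they are different
  have hinj : ∀ T : Finset ℕ, T ⊆ W → ∀ T' : Finset ℕ, T' ⊆ W →
      ∏ p ∈ T, χ p = ∏ p ∈ T', χ p → T = T' := by
    have hcrit : ∀ T : Finset ℕ, T ⊆ W → ∀ p ∈ W,
        (p ∈ T ↔ (∏ q ∈ T, χ q) ^ (∏ q ∈ W.erase p, q) ≠ 1) := by
      intro T hT p hp
      set M := ∏ q ∈ W.erase p, q with hM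
      have h1 : ∀ q ∈ T, q ≠ p → χ q ^ M = 1 := by
        intro q hq hqp
        have h2 : q ∣ M := Finset.dvd_prod_of_mem _ (Finset.mem_erase.2 ⟨hqp, hT hq⟩)
        obtain ⟨c, hc⟩ := h2
        rw [hc, pow_mul, hχp q (hT hq), one_pow]
      rw [← Finset.prod_pow]
      constructor
      · intro hpT h3
        rw [← Finset.mul_prod_erase T _ hpT, Finset.prod_eq_one (s := T.erase p) (fun q hq =>
          h1 q (Finset.mem_of_mem_erase hq) (Finset.ne_of_mem_erase hq)), mul_one] at h3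
        have hc : Nat.Coprime M p := by
          refine Nat.Coprime.prod_left fun q hq => ?_
          rw [Nat.coprime_primes (hW q (Finset.mem_of_mem_erase hq)).1 (hW p hp).1]
          exact Finset.ne_of_mem_erase hq
        have := pow_gcd_eq_one.2 ⟨h3, hχp p hp⟩
        rw [Nat.Coprime.gcd_eq_one hc, pow_one] at this
        exact hχ1 p hp this
      · intro h3
        by_contra hpT
        apply h3
        refine Finset.prod_eq_one fun q hq => h1 q hq ?_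
        rintro rfl
        exact hpT hq
    intro T hT T' hT' he
    ext p
    constructor
    · intro hp
      rw [hcrit T' hT' p (hT hp), ← he]
      exact (hcrit T hT p (hT hp)).1 hp
    · intro hp
      rw [hcrit T hT p (hT' hp), he]
      exact (hcrit T' hT' p (hT' hp)).1 hp
  refine ⟨b, ∏ p ∈ W, p, Finset.prod_pos hpos, ?_, ?_⟩
  · rw [hb, mul_pow, ← Finset.prod_pow]
    have h1 : ∏ q ∈ W, z q ^ (∏ p ∈ W, p) = 1 := by
      refine Finset.prod_eq_one fun q hq => ?_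
      obtain ⟨c, hc⟩ := Finset.dvd_prod_of_mem (fun p : ℕ => p) hq
      rw [hc, pow_mul, hzp q hq, one_pow]
    rw [h1, mul_one]
  · -- the fibres
    have hφ : ∀ x : K, ∃ y : K, ∀ g : K ≃ₐ[ℚ] K, g α = x → g b = y := by
      intro x
      by_cases hx : ∃ g : K ≃ₐ[ℚ] K, g α = x
      · obtain ⟨g, rfl⟩ := hx
        refine ⟨g b, fun h hh => ?_⟩
        have h1 : (g⁻¹ * h) b = b := hstab _ (by
          rw [AlgEquiv.mul_apply, hh, ← AlgEquiv.mul_apply, inv_mul_cancel, AlgEquiv.one_apply])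
        have h2 : g ((g⁻¹ * h) b) = h b := by rw [← AlgEquiv.mul_apply, mul_inv_cancel_left]
        rw [← h2, h1]
      · exact ⟨0, fun g hg => absurd ⟨g, hg⟩ hx⟩
    choose φ hφ using hφ
    have himg : orb b = (orb α).image φ := by
      ext x
      rw [Finset.mem_image]
      constructor
      · intro hx
        obtain ⟨g, rfl⟩ := Disc.mem_orb.1 hx
        exact ⟨g α, Disc.mem_orb.2 ⟨g, rfl⟩, (hφ _ g rfl).symm⟩
      · rintro ⟨w, hw, rfl⟩
        obtain ⟨g, rfl⟩ := Disc.mem_orb.1 hw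
        rw [← hφ _ g rfl]
        exact Disc.mem_orb.2 ⟨g, rfl⟩
    rw [himg]
    refine Finset.mul_card_image_le_card _ _ ?_
    intro a ha
    obtain ⟨w, hw, rfl⟩ := Finset.mem_image.1 ha
    obtain ⟨g, rfl⟩ := Disc.mem_orb.1 hw
    rw [← Finset.card_powerset]
    refine Finset.card_le_card_of_injOn (fun T => g ((∏ p ∈ T, χ p) * α)) ?_ ?_
    · intro T hT
      have hT2 : T ⊆ W := Finset.mem_powerset.1 hT
      obtain ⟨t, ht1, ht2⟩ := hsub T hT2
      rw [Finset.mem_coe, Finset.mem_filter]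
      show g ((∏ p ∈ T, χ p) * α) ∈ orb α ∧ φ (g ((∏ p ∈ T, χ p) * α)) = φ (g α)
      rw [← ht2]
      refine ⟨Disc.mem_orb.2 ⟨g * t, rfl⟩, ?_⟩
      have e1 : (g * t) b = φ (g (t α)) := hφ _ (g * t) rfl
      have e2 : g b = φ (g α) := hφ _ g rfl
      rw [← e1, ← e2, AlgEquiv.mul_apply, ht1]
    · intro T hT T' hT' he
      have hT2 : T ⊆ W := Finset.mem_powerset.1 hT
      have hT2' : T' ⊆ W := Finset.mem_powerset.1 hT'
      refine hinj T hT2 T' hT2' ?_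
      exact mul_right_cancel₀ hα (g.injective he)

/-- sums over the conjugates of two elements with a common power -/
theorem twist_sum (σ : K →+* ℂ) (α b : K) {N : ℕ} (hN : 0 < N) (h : b ^ N = α ^ N) (F : ℝ → ℝ) :
    ((orb α).card : ℝ) * ∑ y ∈ orb b, F ‖σ y‖ = ((orb b).card : ℝ) * ∑ x ∈ orb α, F ‖σ x‖ := by
  classical
  have h1 := orb_sum α (fun x => F ‖σ x‖)
  have h2 := orb_sum b (fun x => F ‖σ x‖)
  have h3 : ∑ g : K ≃ₐ[ℚ] K, F ‖σ (g b)‖ = ∑ g : K ≃ₐ[ℚ] K, F ‖σ (g α)‖ := by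
    refine Finset.sum_congr rfl fun g _ => ?_
    congr 1
    have h4 : ‖σ (g b)‖ ^ N = ‖σ (g α)‖ ^ N := by
      rw [← norm_pow, ← norm_pow, ← map_pow, ← map_pow, ← map_pow, ← map_pow, h]
    exact (pow_left_inj₀ (norm_nonneg _) (norm_nonneg _) hN.ne').1 h4
  rw [h3] at h2
  have hG : (0 : ℝ) < (Fintype.card (K ≃ₐ[ℚ] K) : ℝ) := by
    exact_mod_cast Fintype.card_pos
  have h5 : (Fintype.card (K ≃ₐ[ℚ] K) : ℝ) * (((orb α).card : ℝ) * ∑ y ∈ orb b, F ‖σ y‖) =
      (Fintype.card (K ≃ₐ[ℚ] K) : ℝ) * (((orb b).card : ℝ) * ∑ x ∈ orb α, F ‖σ x‖) := by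
    linear_combination ((orb b).card : ℝ) * h1 - ((orb α).card : ℝ) * h2
  exact mul_left_cancel₀ hG.ne' h5

open Classical in
/-- the twist, with Mahler's measure -/
theorem exists_twist_lm (σ : K →+* ℂ) (α : K) (hα : α ≠ 0) (W : Finset ℕ)
    (hW : ∀ p ∈ W, p.Prime ∧ (∃ x ∈ orb α, ∃ y ∈ orb α, x ≠ y ∧ x ^ p = y ^ p) ∧
      ((orb α).filter fun x => x ^ p = α ^ p).card < p) :
    ∃ (b : K) (N : ℕ), 0 < N ∧ b ^ N = α ^ N ∧ 2 ^ W.card * (orb b).card ≤ (orb α).card ∧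
      (0 < ∑ x ∈ orb α, Real.posLog ‖σ x‖ → 0 < ∑ y ∈ orb b, Real.posLog ‖σ y‖) ∧
      2 ^ W.card * ∑ y ∈ orb b, Real.posLog ‖σ y‖ ≤ ∑ x ∈ orb α, Real.posLog ‖σ x‖ := by
  obtain ⟨b, N, hN, hbN, hcard⟩ := exists_twist α hα W hW
  have h1 := twist_sum σ α b hN hbN Real.posLog
  have hA : (0 : ℝ) < ((orb α).card : ℝ) := by
    exact_mod_cast Finset.card_pos.2 ⟨α, Disc.mem_orb.2 ⟨1, rfl⟩⟩
  have hB : (0 : ℝ) < ((orb b).card : ℝ) := by
    exact_mod_cast Finset.card_pos.2 ⟨b, Disc.mem_orb.2 ⟨1, rfl⟩⟩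
  have hS : 0 ≤ ∑ x ∈ orb α, Real.posLog ‖σ x‖ :=
    Finset.sum_nonneg fun x _ => Real.posLog_nonneg
  refine ⟨b, N, hN, hbN, hcard, ?_, ?_⟩
  · intro h
    by_contra h2
    have h3 : ((orb α).card : ℝ) * ∑ y ∈ orb b, Real.posLog ‖σ y‖ ≤ 0 :=
      mul_nonpos_of_nonneg_of_nonpos hA.le (not_lt.1 h2)
    rw [h1] at h3
    exact absurd (mul_pos hB h) (not_lt.2 h3)
  · have hc : ((2 : ℝ) ^ W.card) * ((orb b).card : ℝ) ≤ ((orb α).card : ℝ) := by
      exact_mod_cast hcard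
    have h2 : ((orb α).card : ℝ) * (2 ^ W.card * ∑ y ∈ orb b, Real.posLog ‖σ y‖) ≤
        ((orb α).card : ℝ) * ∑ x ∈ orb α, Real.posLog ‖σ x‖ := by
      calc ((orb α).card : ℝ) * (2 ^ W.card * ∑ y ∈ orb b, Real.posLog ‖σ y‖)
          = 2 ^ W.card * (((orb α).card : ℝ) * ∑ y ∈ orb b, Real.posLog ‖σ y‖) := by ring
        _ = 2 ^ W.card * (((orb b).card : ℝ) * ∑ x ∈ orb α, Real.posLog ‖σ x‖) := by rw [h1]
        _ = (2 ^ W.card * ((orb b).card : ℝ)) * ∑ x ∈ orb α, Real.posLog ‖σ x‖ := by ring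
        _ ≤ _ := mul_le_mul_of_nonneg_right hc hS
    exact le_of_mul_le_mul_left h2 hA

end H90.LB
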