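import Pool.Agent.H91.LK.B5
import Pool.Agent.H90.LB.Twist
import Pool.Agent.H97.LB.Bad
import Pool.Agent.H23.LB.ToField

/-!
# LB: reduction to polynomials which are not polynomials in `X ^ p`

`red_lm_expand`: `f` and `f(X ^ p)` have the same Mahler measure. `red_exists`: for the lower bounds of the Mahler measure of
an irreducible `f` of positive degree one can assume that `f` is not of the form `h(X ^ p)`. `red_block`: if `α` has `p`
conjugates with the same `p`-th power then its minimal polynomial is of the form `h(X ^ p)`. `red_twist`: Dobrowolski's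
theorem for the twist (`exists_twist_lm`): `2 ^ #W * c / (log d) ^ 3 ≤ lm f`.
-/

set_option autoImplicit false

namespace H90.LB

open H25.Arith Polynomial H91.LK

theorem red_lm_expand {p : ℕ} (hp : 0 < p) (h : ℤ[X]) : lm (expand ℤ p h) = lm h := by
  unfold lm
  rw [logMahlerMeasure_def, logMahlerMeasure_def, Real.circleAverage_def, Real.circleAverage_def]
  congr 1
  set G : ℝ → ℝ := fun θ => Real.log ‖(h.map (Int.castRingHom ℂ)).eval (circleMap 0 1 θ)‖ with hG
  have hper : Function.Periodic G (2 * Real.pi) := by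
    intro θ
    rw [hG]
    simp only
    rw [periodic_circleMap 0 1 θ]
  have h1 : ∀ θ : ℝ, Real.log ‖((expand ℤ p h).map (Int.castRingHom ℂ)).eval (circleMap 0 1 θ)‖ =
      G (p * θ) := by
    intro θ
    rw [hG]
    simp only
    rw [map_expand, expand_eval]
    congr 3
    rw [circleMap, circleMap]
    simp only [Complex.ofReal_one, one_mul, zero_add]
    rw [← Complex.exp_nat_mul]
    congr 1
    push_cast
    ring
  have hint0 : IntervalIntegrable G MeasureTheory.volume 0 (0 + 2 * Real.pi) := by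
    rw [zero_add]
    exact intervalIntegrable_mahlerMeasure (p := h.map (Int.castRingHom ℂ))
  have hint : ∀ t₁ t₂ : ℝ, IntervalIntegrable G MeasureTheory.volume t₁ t₂ :=
    fun t₁ t₂ => hper.intervalIntegrable (by positivity) hint0 t₁ t₂
  have h2 : ∫ θ in (0 : ℝ)..2 * Real.pi, G (p * θ) = ∫ θ in (0 : ℝ)..2 * Real.pi, G θ := by
    have hp0 : (p : ℝ) ≠ 0 := by exact_mod_cast hp.ne'
    rw [intervalIntegral.integral_comp_mul_left G hp0, mul_zero]
    have h3 := hper.intervalIntegral_add_zsmul_eq (p : ℤ) 0 hint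
    rw [zero_add, zero_add, zsmul_eq_mul, zsmul_eq_mul, Int.cast_natCast] at h3
    rw [h3, smul_eq_mul, ← mul_assoc, inv_mul_cancel₀ hp0, one_mul]
  rw [← h2]
  exact intervalIntegral.integral_congr fun θ _ => h1 θ

theorem red_exists (f : ℤ[X]) (hf : Irreducible f) (hd : 0 < f.natDegree) :
    ∃ g : ℤ[X], Irreducible g ∧ 0 < g.natDegree ∧ g.natDegree ≤ f.natDegree ∧ lm g = lm f ∧
      (∀ B : ℝ, (∀ z : ℂ, ‖z‖ = 1 → ‖(f.map (Int.castRingHom ℂ)).eval z‖ ≤ B) →
        ∀ z : ℂ, ‖z‖ = 1 → ‖(g.map (Int.castRingHom ℂ)).eval z‖ ≤ B) ∧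
      ∀ p : ℕ, p.Prime → ∀ h : ℤ[X], g ≠ expand ℤ p h := by
  induction hn : f.natDegree using Nat.strong_induction_on generalizing f with
  | _ n ih =>
    by_cases hex : ∃ p : ℕ, p.Prime ∧ ∃ h : ℤ[X], f = expand ℤ p h
    · obtain ⟨p, hp, h, rfl⟩ := hex
      have h1 : Irreducible h := of_irreducible_expand hp.ne_zero hf
      rw [natDegree_expand] at hn hd
      have h2 : 0 < h.natDegree := Nat.pos_of_mul_pos_right hd
      have h3 : h.natDegree < n := by
        rw [← hn]
        exact lt_mul_of_one_lt_right h2 hp.one_lt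
      obtain ⟨g, g1, g2, g3, g4, g5, g6⟩ := ih h.natDegree h3 h h1 h2 rfl
      refine ⟨g, g1, g2, g3.trans h3.le, by rw [g4, red_lm_expand hp.pos], ?_, g6⟩
      intro B hB
      refine g5 B fun z hz => ?_
      obtain ⟨w, hw⟩ := IsAlgClosed.exists_pow_nat_eq z hp.pos
      have hw1 : ‖w‖ = 1 := by
        have h4 : ‖w‖ ^ p = 1 := by rw [← norm_pow, hw, hz]
        exact (pow_eq_one_iff_of_nonneg (norm_nonneg _) hp.ne_zero).1 h4
      have h5 := hB w hw1
      rwa [map_expand, expand_eval, hw] at h5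
    · exact ⟨f, hf, hd, hn.le, rfl, fun B hB => hB, fun p hp h he => hex ⟨p, hp, h, he⟩⟩

section Block

variable {K : Type} [Field K] [NumberField K] [IsGalois ℚ K]

open Classical in
omit [IsGalois ℚ K] in
theorem red_block_mem {α : K} (hα0 : α ≠ 0) {p : ℕ} (hp : p.Prime)
    (hcard : p ≤ ((orb α).filter fun x => x ^ p = α ^ p).card) :
    (∃ ζ : K, ζ ^ p = 1 ∧ ζ ≠ 1) ∧ ∀ ζ : K, ζ ^ p = 1 → ∀ x ∈ orb α, ζ * x ∈ orb α := by
  set Bl := (orb α).filter fun x => x ^ p = α ^ p with hBl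
  set R : Finset K := (nthRoots p (1 : K)).toFinset with hR
  have hmem : ∀ ζ : K, ζ ∈ R ↔ ζ ^ p = 1 := by
    intro ζ
    rw [hR, Multiset.mem_toFinset, mem_nthRoots hp.pos]
  have hRc : R.card ≤ p := (Multiset.toFinset_card_le _).trans (card_nthRoots p 1)
  have hsub : Bl.image (fun x => x / α) ⊆ R := by
    intro ζ hζ
    obtain ⟨x, hx, rfl⟩ := Finset.mem_image.1 hζ
    rw [hmem, div_pow, (Finset.mem_filter.1 hx).2, div_self (pow_ne_zero _ hα0)]
  have hinj : Function.Injective (fun x : K => x / α) := fun x y h => by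
    simpa [div_left_inj' hα0] using h
  have heq : Bl.image (fun x => x / α) = R := by
    refine Finset.eq_of_subset_of_card_le hsub ?_
    rw [Finset.card_image_of_injective _ hinj]
    exact hRc.trans hcard
  have hRc2 : p ≤ R.card := by
    rw [← heq, Finset.card_image_of_injective _ hinj]
    exact hcard
  constructor
  · have h1 : (1 : K) ∈ R := (hmem 1).2 (one_pow _)
    obtain ⟨ζ, hζ, hne⟩ := Finset.exists_mem_ne (lt_of_lt_of_le hp.one_lt hRc2) 1
    exact ⟨ζ, (hmem ζ).1 hζ, hne⟩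
  · intro ζ hζ x hx
    obtain ⟨g, rfl⟩ := Disc.mem_orb.1 hx
    have h1 : (g.symm ζ) ^ p = 1 := by rw [← map_pow, hζ, map_one]
    have h2 := (hmem _).2 h1
    rw [← heq] at h2
    obtain ⟨y, hy, hy2⟩ := Finset.mem_image.1 h2
    have h3 : y = g.symm ζ * α := by
      rw [← hy2, div_mul_cancel₀ _ hα0]
    have h4 : g y = ζ * g α := by
      rw [h3, map_mul, AlgEquiv.apply_symm_apply]
    rw [← h4]
    exact Disc.map_mem_orb (Finset.mem_filter.1 hy).1 g

open Classical in
theorem red_block {α : K} (hα : IsIntegral ℤ α) (hα0 : α ≠ 0) {p : ℕ} (hp : p.Prime)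
    (hcard : p ≤ ((orb α).filter fun x => x ^ p = α ^ p).card) :
    ∃ h : ℤ[X], minpoly ℤ α = expand ℤ p h := by
  obtain ⟨⟨ζ, hζ, hζ1⟩, hmul⟩ := red_block_mem hα0 hp hcard
  have hζ0 : ζ ≠ 0 := by
    rintro rfl
    rw [zero_pow hp.ne_zero] at hζ
    exact zero_ne_one hζ
  set P : K[X] := ∏ y ∈ orb α, (X - C y) with hP
  have hP2 : (minpoly ℤ α).map (algebraMap ℤ K) = P := by
    have h2 := links_prod α
    rw [minpoly.isIntegrallyClosed_eq_field_fractions' ℚ hα, Polynomial.map_map] at h2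
    rw [hP, ← h2]
    congr 1
    exact Subsingleton.elim _ _
  have h1 : P.comp (C ζ * X) = C (ζ ^ (orb α).card) * P := by
    rw [hP, prod_comp, C_pow, ← Finset.prod_const, ← Finset.prod_mul_distrib]
    refine Finset.prod_bij' (fun y _ => ζ⁻¹ * y) (fun y _ => ζ * y) ?_ ?_ ?_ ?_ ?_
    · intro y hy
      exact hmul _ (by rw [inv_pow, hζ, inv_one]) y hy
    · intro y hy
      exact hmul ζ hζ y hy
    · intro y _
      exact mul_inv_cancel_left₀ hζ0 y
    · intro y _
      exact inv_mul_cancel_left₀ hζ0 y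
    · intro y _
      rw [sub_comp, X_comp, C_comp, mul_sub, ← C_mul, mul_inv_cancel_left₀ hζ0]
  have h2 : ∀ i : ℕ, P.coeff i * ζ ^ i = ζ ^ (orb α).card * P.coeff i := by
    intro i
    rw [← comp_C_mul_X_coeff, h1, coeff_C_mul]
  have h3 : P.coeff 0 ≠ 0 := by
    rw [hP, coeff_zero_eq_eval_zero, eval_prod]
    refine Finset.prod_ne_zero_iff.2 fun y hy => ?_
    obtain ⟨g, rfl⟩ := Disc.mem_orb.1 hy
    rw [eval_sub, eval_X, eval_C, zero_sub, neg_ne_zero]
    exact (_root_.map_ne_zero g).2 hα0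
  have h4 : ζ ^ (orb α).card = 1 := by
    have h5 := h2 0
    rw [pow_zero, mul_one] at h5
    exact (mul_right_cancel₀ h3 (by rw [one_mul]; exact h5)).symm
  have h5 : ∀ i : ℕ, ¬ p ∣ i → P.coeff i = 0 := by
    intro i hi
    by_contra hne
    have h6 := h2 i
    rw [h4, one_mul] at h6
    have h7 : ζ ^ i = 1 := mul_left_cancel₀ hne (by rw [h6, mul_one])
    have hc : Nat.Coprime i p := ((Nat.Prime.coprime_iff_not_dvd hp).2 hi).symm
    have := pow_gcd_eq_one.2 ⟨h7, hζ⟩
    rw [Nat.Coprime.gcd_eq_one hc, pow_one] at this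
    exact hζ1 this
  refine ⟨contract p (minpoly ℤ α), ?_⟩
  ext i
  rw [coeff_expand hp.pos, coeff_contract hp.ne_zero]
  split_ifs with hd
  · rw [Nat.div_mul_cancel hd]
  · have h6 := h5 i hd
    rw [← hP2, coeff_map] at h6
    exact (map_eq_zero_iff _ (RingHom.injective_int (algebraMap ℤ K))).1 h6

open Classical in
/-- Dobrowolski's theorem for the twist -/
theorem red_twist : ∃ c : ℝ, 0 < c ∧ ∀ {K : Type} [Field K] [NumberField K] [IsGalois ℚ K]
    (σ : K →+* ℂ) (α : K) (D : ℝ), IsIntegral ℤ α → 3 ≤ D → ((orb α).card : ℝ) ≤ D →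
    0 < ∑ x ∈ orb α, Real.posLog ‖σ x‖ → ∀ W : Finset ℕ,
    (∀ p ∈ W, p.Prime ∧ (∃ x ∈ orb α, ∃ y ∈ orb α, x ≠ y ∧ x ^ p = y ^ p) ∧
      ((orb α).filter fun x => x ^ p = α ^ p).card < p) →
    2 ^ W.card * (c / (Real.log D) ^ 3) ≤ ∑ x ∈ orb α, Real.posLog ‖σ x‖ := by
  obtain ⟨c, hc, hdob⟩ := dobrowolski
  refine ⟨c, hc, ?_⟩
  intro K _ _ _ σ α D hα hD hdeg hS W hW
  have hα0 : α ≠ 0 := by
    rintro rfl
    refine absurd hS (not_lt.2 (le_of_eq ?_))
    refine Finset.sum_eq_zero fun x hx => ?_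
    obtain ⟨g, rfl⟩ := Disc.mem_orb.1 hx
    simp
  obtain ⟨b, N, hN, hbN, hcard, hpos, hle⟩ := exists_twist_lm σ α hα0 W hW
  have hb : IsIntegral ℤ b := IsIntegral.of_pow hN (by rw [hbN]; exact hα.pow N)
  have h1 := hpos hS
  rw [← nd_lm_minpoly σ b hb] at h1 hle
  have h2 : ((minpoly ℤ b).natDegree : ℝ) ≤ D := by
    rw [nd_card b hb]
    refine le_trans ?_ hdeg
    have h3 : (orb b).card ≤ (orb α).card :=
      le_trans (Nat.le_mul_of_pos_left _ (pow_pos (by norm_num) _)) hcard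
    exact_mod_cast h3
  refine le_trans ?_ hle
  exact mul_le_mul_of_nonneg_left (hdob _ D h1 hD h2) (by positivity)

end Block

end H90.LB
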