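import Pool.Agent.H7.LB.Final
import Pool.Agent.H90.LB.Red

/-!
# LB: the theorem for all irreducible polynomials, with `log log` of the degree
-/

set_option autoImplicit false

namespace H90.LB

open H25.Arith Polynomial H91.LK

/-- the numbers: `w` exceptional primes -/
theorem all_num {c₁ c₂ L d D m : ℝ} {w : ℕ} (hc₁ : 0 < c₁) (hc₂ : 0 < c₂) (hL : 0 ≤ L)
    (hd : 1 ≤ d) (hD : D = max 3 d)
    (h1 : c₁ / ((1 + L) * ((1 + L) ^ 2 + w)) ≤ m)
    (h2 : 2 ^ w * (c₂ / (Real.log D) ^ 3) ≤ m) :
    min (c₁ / 6) c₂ / ((1 + L) * ((1 + L) ^ 2 + Real.log (1 + Real.log d))) ≤ m := by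
  have hlogd : 0 ≤ Real.log d := Real.log_nonneg hd
  have hℓ : 0 ≤ Real.log (1 + Real.log d) := Real.log_nonneg (by linarith)
  have hsq : (1 : ℝ) ≤ (1 + L) ^ 2 := one_le_pow₀ (by linarith)
  have hden : (1 : ℝ) ≤ (1 + L) * ((1 + L) ^ 2 + Real.log (1 + Real.log d)) := by nlinarith
  have hc : 0 < min (c₁ / 6) c₂ := lt_min (by positivity) hc₂
  have hlog2 : (1 : ℝ) / 2 ≤ Real.log 2 := by
    have := Real.log_two_gt_d9
    linarith
  have hD3 : 3 ≤ D := by rw [hD]; exact le_max_left _ _
  have hlogD1 : 1 ≤ Real.log D := by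
    rw [Real.le_log_iff_exp_le (by linarith)]
    have := Real.exp_one_lt_d9
    linarith
  rcases le_or_gt ((Real.log D) ^ 3) (2 ^ w) with hcase | hcase
  · calc min (c₁ / 6) c₂ / ((1 + L) * ((1 + L) ^ 2 + Real.log (1 + Real.log d))) ≤
          min (c₁ / 6) c₂ := div_le_self hc.le hden
      _ ≤ c₂ := min_le_right _ _
      _ = (Real.log D) ^ 3 * (c₂ / (Real.log D) ^ 3) := by
          field_simp
      _ ≤ 2 ^ w * (c₂ / (Real.log D) ^ 3) :=
          mul_le_mul_of_nonneg_right hcase (by positivity)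
      _ ≤ m := h2
  · -- few exceptional primes
    have hDle : Real.log D ≤ 2 * (1 + Real.log d) := by
      rw [hD]
      rcases le_total 3 d with h | h
      · rw [max_eq_right h]
        linarith
      · rw [max_eq_left h]
        have h3 : Real.log 3 ≤ 2 := by
          rw [Real.log_le_iff_le_exp (by norm_num)]
          have h4 := Real.exp_one_gt_d9
          have h5 : Real.exp 2 = Real.exp 1 * Real.exp 1 := by rw [← Real.exp_add]; norm_num
          rw [h5]
          nlinarith
        linarith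
    have h3 : (w : ℝ) * Real.log 2 ≤ 3 * Real.log (Real.log D) := by
      have h4 := Real.log_le_log (by positivity) hcase.le
      rwa [Real.log_pow, Real.log_pow] at h4
    have h5 : Real.log (Real.log D) ≤ Real.log 2 + Real.log (1 + Real.log d) := by
      rw [← Real.log_mul (by norm_num) (by linarith)]
      exact Real.log_le_log (by linarith) hDle
    have hlog2' : Real.log 2 ≤ 1 := by
      have := Real.log_two_lt_d9
      linarith
    have h6 : (w : ℝ) ≤ 3 + 6 * Real.log (1 + Real.log d) := by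
      have h7 : (w : ℝ) * Real.log 2 ≤ (3 + 6 * Real.log (1 + Real.log d)) * Real.log 2 := by
        nlinarith
      exact le_of_mul_le_mul_right h7 (by linarith)
    refine le_trans ?_ h1
    rw [div_le_div_iff₀ (by positivity) (by positivity)]
    have h8 : (1 + L) ^ 2 + (w : ℝ) ≤ 6 * ((1 + L) ^ 2 + Real.log (1 + Real.log d)) := by
      linarith
    calc min (c₁ / 6) c₂ * ((1 + L) * ((1 + L) ^ 2 + (w : ℝ))) ≤
          c₁ / 6 * ((1 + L) * ((1 + L) ^ 2 + (w : ℝ))) :=
          mul_le_mul_of_nonneg_right (min_le_left _ _) (by positivity)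
      _ ≤ c₁ / 6 * ((1 + L) * (6 * ((1 + L) ^ 2 + Real.log (1 + Real.log d)))) :=
          mul_le_mul_of_nonneg_left (mul_le_mul_of_nonneg_left h8 (by linarith)) (by positivity)
      _ = c₁ * ((1 + L) * ((1 + L) ^ 2 + Real.log (1 + Real.log d))) := by ring

/-- **Theorem** (all irreducible polynomials). -/
theorem length_bound_loglog : ∃ c : ℝ, 0 < c ∧ ∀ (f : ℤ[X]) (B : ℝ), Irreducible f → 0 < lm f →
    (∀ z : ℂ, ‖z‖ = 1 → ‖(f.map (Int.castRingHom ℂ)).eval z‖ ≤ B) →
    c / ((1 + Real.log B) * ((1 + Real.log B) ^ 2 + Real.log (1 + Real.log f.natDegree))) ≤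
      lm f := by
  classical
  obtain ⟨C, hC, hen⟩ := H82.LB.energy_lemma
  obtain ⟨c₁, hc₁, hcore⟩ := H82.LB.assembly_core C hC
  obtain ⟨c₂, hc₂, hdob⟩ := red_twist
  have hcc : 0 < min (c₁ / 6) c₂ := lt_min (by positivity) hc₂
  refine ⟨min (min (c₁ / 6) c₂) (Real.log 2), lt_min hcc (Real.log_pos (by norm_num)), ?_⟩
  intro f B hf h0 hB
  have hB1 : 1 ≤ B := H82.LB.log_sup f B h0 hB
  have hB0 : 0 < B := by linarith
  have hL : 0 ≤ Real.log B := Real.log_nonneg hB1
  have hsq : (1 : ℝ) ≤ (1 + Real.log B) ^ 2 := one_le_pow₀ (by linarith)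
  have hlogf : 0 ≤ Real.log f.natDegree := Real.log_natCast_nonneg _
  have hℓ : 0 ≤ Real.log (1 + Real.log f.natDegree) := Real.log_nonneg (by linarith)
  have hden : (1 : ℝ) ≤ (1 + Real.log B) *
      ((1 + Real.log B) ^ 2 + Real.log (1 + Real.log f.natDegree)) := by nlinarith
  rcases le_or_gt (Real.log 2) (lm f) with h2 | h2
  · calc min (min (c₁ / 6) c₂) (Real.log 2) / ((1 + Real.log B) *
          ((1 + Real.log B) ^ 2 + Real.log (1 + Real.log f.natDegree))) ≤
          min (min (c₁ / 6) c₂) (Real.log 2) :=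
          div_le_self (le_min hcc.le (Real.log_nonneg (by norm_num))) hden
      _ ≤ Real.log 2 := min_le_right _ _
      _ ≤ lm f := h2
  · have hlog2 : Real.log 2 ≤ 1 := by
      have := Real.log_two_lt_d9
      linarith
    have hfdeg : 0 < f.natDegree := by
      rw [Nat.pos_iff_ne_zero]
      intro hz
      have hlc := nd_lc hf.ne_zero h2
      apply hf.not_isUnit
      rw [eq_C_of_natDegree_eq_zero hz] at hlc ⊢
      rw [leadingCoeff_C] at hlc
      rw [isUnit_C]
      exact Int.isUnit_iff_abs_eq.2 hlc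
    obtain ⟨g, hg, hgd, hgf, hglm, hgB, hgexp⟩ := red_exists f hf hfdeg
    rw [← hglm] at h0 h2 ⊢
    obtain ⟨K, iF, iN, iG, σ, α, hα, hassoc, hcard, hdeg, hm, hrf, -, hne, hprod⟩ :=
      H23.LB.to_field_full g hg h0 h2 B (hgB B hB)
    obtain ⟨W, hW1, hW2, -, -⟩ := H97.LB.exists_bad α
    have hα0 : α ≠ 0 := by
      rintro rfl
      have h3 : ∑ x ∈ orb (0 : K), Real.posLog ‖σ x‖ = 0 := by
        refine Finset.sum_eq_zero fun x hx => ?_
        obtain ⟨s, rfl⟩ := Disc.mem_orb.1 hx
        simp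
      rw [h3] at hm
      linarith
    have hW3 : ∀ p ∈ W, p.Prime ∧ (∃ x ∈ orb α, ∃ y ∈ orb α, x ≠ y ∧ x ^ p = y ^ p) ∧
        ((orb α).filter fun x => x ^ p = α ^ p).card < p := by
      intro p hp
      refine ⟨(hW1 p hp).1, (hW1 p hp).2, ?_⟩
      by_contra hge
      obtain ⟨h, hh⟩ := red_block hα hα0 (hW1 p hp).1 (not_lt.1 hge)
      obtain ⟨u, hu⟩ := hassoc
      obtain ⟨e, -, he⟩ := Polynomial.isUnit_iff.1 u.isUnit
      apply hgexp p (hW1 p hp).1 (h * Polynomial.C e)
      rw [← hu, hh, map_mul, expand_C, he]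
    have key := hcore K σ α W (Real.log B) hα hcard hL (by rw [hm]; exact h0)
      (by rw [hm]; linarith) hW2 hne (by
        intro ε hε hε2
        rw [hm]
        exact H82.LB.energy_orb hC hen σ α hL hcard hrf
          (by rw [Real.exp_log hB0]; exact hprod) hε hε2)
    rw [hm] at key
    have key2 := hdob σ α (max 3 (g.natDegree : ℝ)) hα (le_max_left _ _)
      (by rw [hdeg]; exact le_max_right _ _) (by rw [hm]; exact h0) W hW3
    rw [hm] at key2
    have hgd1 : (1 : ℝ) ≤ (g.natDegree : ℝ) := by exact_mod_cast hgd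
    have key3 := all_num hc₁ hc₂ hL hgd1 rfl key key2
    have hlogg : 0 ≤ Real.log g.natDegree := Real.log_nonneg hgd1
    have hℓg : 0 ≤ Real.log (1 + Real.log g.natDegree) := Real.log_nonneg (by linarith)
    have hgf' : (g.natDegree : ℝ) ≤ (f.natDegree : ℝ) := by exact_mod_cast hgf
    have hmono : Real.log (1 + Real.log g.natDegree) ≤ Real.log (1 + Real.log f.natDegree) := by
      apply Real.log_le_log (by linarith)
      have := Real.log_le_log (by linarith) hgf'
      linarith
    refine le_trans ?_ key3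
    calc min (min (c₁ / 6) c₂) (Real.log 2) / ((1 + Real.log B) *
          ((1 + Real.log B) ^ 2 + Real.log (1 + Real.log f.natDegree))) ≤
          min (c₁ / 6) c₂ / ((1 + Real.log B) *
          ((1 + Real.log B) ^ 2 + Real.log (1 + Real.log f.natDegree))) :=
          div_le_div_of_nonneg_right (min_le_left _ _) (by positivity)
      _ ≤ _ := by
          apply div_le_div_of_nonneg_left hcc.le (by positivity)
          exact mul_le_mul_of_nonneg_left (by linarith) (by linarith)

end H90.LB
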