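import Mathlib

/-!
# LB, block E2: the choice of the parameters
-/

set_option autoImplicit false

namespace H90.LB

open Filter Topology Asymptotics

theorem cheb : ∃ X : ℝ, ∀ x : ℝ, X ≤ x → x / 2 ≤ Chebyshev.theta x ∧
    (Nat.primeCounting ⌊x⌋₊ : ℝ) ≤ 2 * x / Real.log x := by
  have h1 : (fun x : ℝ => Real.sqrt x * Real.log x) =o[atTop] (fun x : ℝ => x) := by
    have h := (isBigO_refl (fun x : ℝ => Real.sqrt x) atTop).mul_isLittleO
      (isLittleO_log_rpow_atTop (r := 1 / 2) (by norm_num))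
    refine h.congr' (Eventually.of_forall fun _ => rfl) ?_
    filter_upwards [eventually_ge_atTop 0] with x hx
    rw [← Real.sqrt_eq_rpow, Real.mul_self_sqrt hx]
  have h2 : (fun x : ℝ => Real.log x) =o[atTop] (fun x : ℝ => x) := Real.isLittleO_log_id_atTop
  have h3 := h1.bound (c := 1 / 100) (by norm_num)
  have h4 := h2.bound (c := 1 / 100) (by norm_num)
  have h5 := Chebyshev.eventually_primeCounting_le (ε := 1 / 2) (by norm_num)
  have hl2 := Real.log_two_gt_d9
  have hl2' := Real.log_two_lt_d9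
  have hl4 : Real.log 4 = 2 * Real.log 2 := by
    rw [show (4 : ℝ) = 2 ^ 2 by norm_num, Real.log_pow]; norm_num
  obtain ⟨X, hX⟩ := eventually_atTop.1 (h3.and (h4.and (h5.and (eventually_ge_atTop (1000 : ℝ)))))
  refine ⟨X, fun x hx => ?_⟩
  obtain ⟨a1, a2, a3, a4⟩ := hX x hx
  have hx0 : 0 < x := by linarith
  have hlx : 0 < Real.log x := Real.log_pos (by linarith)
  rw [Real.norm_of_nonneg (by positivity), Real.norm_of_nonneg hx0.le] at a1
  rw [Real.norm_of_nonneg hlx.le, Real.norm_of_nonneg hx0.le] at a2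
  constructor
  · have b := Chebyshev.theta_ge' (x := x) (by linarith)
    have b2 : Real.log (x + 2) ≤ 2 * Real.log x := by
      have b3 : 2 * Real.log x = Real.log (x ^ 2) := by rw [Real.log_pow]; norm_num
      rw [b3]
      apply Real.log_le_log (by positivity)
      nlinarith
    nlinarith
  · refine a3.trans ?_
    gcongr
    rw [hl4]; linarith

/-- the primes up to `x` -/
noncomputable def Qx (x : ℝ) : Finset ℕ := (Finset.Ioc 0 ⌊x⌋₊).filter Nat.Prime

theorem Qx_card (x : ℝ) : (Qx x).card = Nat.primeCounting ⌊x⌋₊ := by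
  rw [Qx, ← Nat.primesLE_card_eq_primeCounting]
  congr 1
  ext p
  simp only [Finset.mem_filter, Finset.mem_Ioc, Nat.mem_primesLE]
  constructor
  · rintro ⟨⟨_, h⟩, hp⟩; exact ⟨h, hp⟩
  · rintro ⟨h, hp⟩; exact ⟨⟨hp.pos, h⟩, hp⟩

theorem core : ∃ e0 : ℝ, ∀ e : ℝ, e0 ≤ e → ∀ μ : ℝ, 0 ≤ μ →
    (∀ T : ℝ, 0 ≤ T → ∀ Q : Finset ℕ, (∀ p ∈ Q, p.Prime) →
      2 * T * ∑ p ∈ Q, Real.log p ≤ (T ^ 2 + Q.card) * e +
        4 * (T + Q.card) * (∑ p ∈ Q, (p : ℝ)) * μ) →
    (Real.log e / e) ^ 3 / 4096 ≤ μ := by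
  obtain ⟨X, hX⟩ := cheb
  refine ⟨max X 20, fun e he μ hμ h => ?_⟩
  have heX : X ≤ e := (le_max_left _ _).trans he
  have he20 : 20 ≤ e := (le_max_right _ _).trans he
  have he0 : 0 < e := by linarith
  have hle1 : 1 ≤ Real.log e := by
    rw [Real.le_log_iff_exp_le he0]
    have := Real.exp_one_lt_d9
    linarith
  have hle0 : 0 < Real.log e := by linarith
  have hlee : Real.log e ≤ e := (Real.log_le_sub_one_of_pos he0).trans (by linarith)
  set x : ℝ := 16 * e ^ 2 / Real.log e with hx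
  have hxe : 16 * e ≤ x := by
    rw [hx, le_div_iff₀ hle0]
    nlinarith
  have hx0 : 0 < x := by linarith
  obtain ⟨c1, c2⟩ := hX x (by linarith)
  have hlx1 : Real.log e ≤ Real.log x := Real.log_le_log he0 (by linarith)
  have hlx0 : 0 < Real.log x := by linarith
  -- log x ≤ e
  have hlx2 : Real.log x ≤ e := by
    have h1 : x ≤ 16 * e ^ 2 := by
      rw [hx, div_le_iff₀ hle0]
      nlinarith [sq_nonneg e]
    have h2 : Real.log x ≤ Real.log (16 * e ^ 2) := Real.log_le_log hx0 h1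
    have h3 : (16 : ℝ) * e ^ 2 = (2 * Real.sqrt e) ^ 4 := by
      rw [mul_pow, show (Real.sqrt e) ^ 4 = ((Real.sqrt e) ^ 2) ^ 2 by ring, Real.sq_sqrt he0.le]
      norm_num
    rw [h3, Real.log_pow] at h2
    have h4 : Real.log (2 * Real.sqrt e) ≤ 2 * Real.sqrt e / 2 := by
      have h5 := Real.log_le_sub_one_of_pos (x := 2 * Real.sqrt e / 2) (by positivity)
      have h6 : Real.log (2 * Real.sqrt e) = Real.log (2 * Real.sqrt e / 2) + Real.log 2 := by
        rw [Real.log_div (by positivity) (by norm_num)]; ring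
      have := Real.log_two_lt_d9
      rw [h6]; linarith
    have h7 : 4 * Real.sqrt e ≤ e := by
      have h8 : 4 ≤ Real.sqrt e := by
        rw [show (4 : ℝ) = Real.sqrt 16 by
          rw [show (16 : ℝ) = 4 ^ 2 by norm_num, Real.sqrt_sq (by norm_num)]]
        exact Real.sqrt_le_sqrt (by linarith)
      nlinarith [Real.sq_sqrt he0.le, Real.sqrt_nonneg e]
    push_cast at h2
    linarith
  set s : ℝ := ((Qx x).card : ℝ) with hs
  have hs' : s = (Nat.primeCounting ⌊x⌋₊ : ℝ) := by rw [hs, Qx_card]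
  have hs0 : 0 ≤ s := Nat.cast_nonneg _
  set th : ℝ := Chebyshev.theta x with hth
  have hth' : ∑ p ∈ Qx x, Real.log p = th := rfl
  have hth0 : 0 < th := by linarith
  have hth2 : th ≤ s * Real.log x := by rw [hs']; exact Chebyshev.theta_le_pi_mul_log' x
  set P : ℝ := ∑ p ∈ Qx x, (p : ℝ) with hP
  have hP0 : 0 ≤ P := Finset.sum_nonneg fun _ _ => Nat.cast_nonneg _
  have hP1 : P ≤ s * x := by
    have h1 : P ≤ ∑ _p ∈ Qx x, x := by
      refine Finset.sum_le_sum fun p hp => ?_
      have h2 := (Finset.mem_Ioc.1 (Finset.mem_filter.1 hp).1).2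
      exact (Nat.cast_le.2 h2).trans (Nat.floor_le hx0.le)
    rwa [Finset.sum_const, nsmul_eq_mul] at h1
  have key := h (th / e) (by positivity) (Qx x) (fun p hp => (Finset.mem_filter.1 hp).2)
  rw [hth'] at key
  -- `s e ≤ th² / (2 e)`
  have hxlx : 16 * e ^ 2 ≤ x * Real.log x := by
    have h1 : x * Real.log e = 16 * e ^ 2 := by rw [hx]; field_simp
    nlinarith
  have hs2 : s ≤ 2 * x / Real.log x := by rw [hs']; exact c2
  have hs3 : s * Real.log x ≤ 2 * x := by rwa [le_div_iff₀ hlx0] at hs2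
  have hse : s * e ≤ th ^ 2 / (2 * e) := by
    rw [le_div_iff₀ (by positivity)]
    -- s * e * (2 e) = 2 s e² ≤ s x log x / 8 ≤ x² / 4 ≤ th²
    have h1 : s * (16 * e ^ 2) ≤ s * (x * Real.log x) := by gcongr
    have h2 : s * (x * Real.log x) ≤ 2 * x * x := by nlinarith
    have h3 : (x / 2) ^ 2 ≤ th ^ 2 := pow_le_pow_left₀ (by positivity) c1 2
    linarith
  -- `T + s ≤ 2 s`
  have hT : th / e ≤ s := by
    rw [div_le_iff₀ he0]
    nlinarith
  have key2 : th ^ 2 / (2 * e) ≤ 8 * s * P * μ := by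
    have h1 : 2 * (th / e) * th - ((th / e) ^ 2) * e = th ^ 2 / e := by field_simp; ring
    have h2 : th ^ 2 / e = 2 * (th ^ 2 / (2 * e)) := by field_simp
    have h3 : 4 * (th / e + s) * P * μ ≤ 8 * s * P * μ := by
      have : 4 * (th / e + s) ≤ 8 * s := by linarith
      gcongr
    have key' : 2 * (th / e) * th ≤ ((th / e) ^ 2 + s) * e + 4 * (th / e + s) * P * μ := key
    nlinarith
  -- conclusion
  have key3 : x ^ 2 / (8 * e) ≤ 8 * (2 * x / Real.log x) * ((2 * x / Real.log x) * x) * μ := by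
    have h1 : x ^ 2 / (8 * e) ≤ th ^ 2 / (2 * e) := by
      rw [div_le_div_iff₀ (by positivity) (by positivity)]
      have h3 : (x / 2) ^ 2 ≤ th ^ 2 := pow_le_pow_left₀ (by positivity) c1 2
      have h4 : x ^ 2 ≤ 4 * th ^ 2 := by linarith [h3]
      have h5 : x ^ 2 * (2 * e) ≤ 4 * th ^ 2 * (2 * e) :=
        mul_le_mul_of_nonneg_right h4 (by positivity)
      linarith
    refine h1.trans (key2.trans ?_)
    have hb0 : 0 ≤ 2 * x / Real.log x := by positivity
    have h4 : P ≤ (2 * x / Real.log x) * x :=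
      hP1.trans (mul_le_mul_of_nonneg_right hs2 hx0.le)
    have h5 : s * P ≤ (2 * x / Real.log x) * ((2 * x / Real.log x) * x) :=
      mul_le_mul hs2 h4 hP0 hb0
    have h6 : s * P * μ ≤ (2 * x / Real.log x) * ((2 * x / Real.log x) * x) * μ :=
      mul_le_mul_of_nonneg_right h5 hμ
    linarith
  have key4 : Real.log x ^ 2 / (256 * e * x) ≤ μ := by
    rw [div_le_iff₀ (by positivity)]
    have h1 : 8 * (2 * x / Real.log x) * ((2 * x / Real.log x) * x) * μ =
        32 * x ^ 3 * μ / Real.log x ^ 2 := by field_simp; ring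
    rw [h1, div_le_div_iff₀ (by positivity) (by positivity)] at key3
    have h2 : 32 * x ^ 3 * μ * (8 * e) = x ^ 2 * (μ * (256 * e * x)) := by ring
    rw [h2] at key3
    exact le_of_mul_le_mul_left key3 (by positivity)
  refine le_trans ?_ key4
  have h1 : 256 * e * x = 4096 * e ^ 3 / Real.log e := by rw [hx]; field_simp; ring
  rw [h1]
  have h2 : Real.log x ^ 2 / (4096 * e ^ 3 / Real.log e) =
      Real.log x ^ 2 * Real.log e / (4096 * e ^ 3) := by field_simp
  have h3 : (Real.log e / e) ^ 3 / 4096 = Real.log e ^ 2 * Real.log e / (4096 * e ^ 3) := by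
    field_simp
  rw [h2, h3]
  gcongr

/-- block E2 -/
theorem numbers (C : ℝ) (hC : 1 ≤ C) : ∃ c : ℝ, 0 < c ∧ ∀ L m : ℝ, 0 ≤ L → 0 < m → m ≤ 1 →
    (∀ ε : ℝ, 0 < ε → ε ≤ 1 / 2 → ∃ E η : ℝ, η ≤ C * ε * (1 + L) ∧
      E ≤ C * (1 + L) * (Real.log (1 / ε) + 2 * m) ∧
      ∀ T : ℝ, 0 ≤ T → ∀ Q : Finset ℕ, (∀ p ∈ Q, p.Prime) →
        2 * T * ∑ p ∈ Q, Real.log p ≤ (T ^ 2 + Q.card) * E +
          4 * (T + Q.card) * (∑ p ∈ Q, (p : ℝ)) * (m + η)) →
    c / (1 + L) ^ 3 ≤ m := by
  obtain ⟨e0, he0⟩ := core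
  set B : ℝ := max (Real.exp (max e0 2)) (1024000 * C ^ 4) with hB
  have hB1 : Real.exp (max e0 2) ≤ B := le_max_left _ _
  have hB2 : 1024000 * C ^ 4 ≤ B := le_max_right _ _
  have hB0 : 0 < B := (Real.exp_pos _).trans_le hB1
  have hlB : max e0 2 ≤ Real.log B := by rwa [Real.le_log_iff_exp_le hB0]
  have hlBe : e0 ≤ Real.log B := (le_max_left _ _).trans hlB
  have hlB2 : 2 ≤ Real.log B := (le_max_right _ _).trans hlB
  have hC0 : 0 < C := by linarith
  refine ⟨1 / (8192 * (5 * C * Real.log B) ^ 3), by positivity, ?_⟩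
  intro L m hL hm hm1 h
  set u : ℝ := 1 + L with hu
  have hu1 : 1 ≤ u := by rw [hu]; linarith
  have hu0 : 0 < u := by linarith
  have hlu : 0 ≤ Real.log u := Real.log_nonneg hu1
  set y : ℝ := B * u with hy
  have hy0 : 0 < y := by positivity
  have hly : Real.log y = Real.log B + Real.log u := Real.log_mul hB0.ne' hu0.ne'
  have hBy : B ≤ y := by rw [hy]; nlinarith
  have hB3 : 2 ≤ B := by
    have := Real.add_one_le_exp (max e0 2)
    have := le_max_right e0 2
    linarith
  have hy2 : 2 ≤ y := by linarith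
  have hε : (y ^ 4)⁻¹ ≤ 1 / 2 := by
    rw [inv_le_comm₀ (by positivity) (by norm_num)]
    have : y ^ 1 ≤ y ^ 4 := pow_le_pow_right₀ (by linarith) (by norm_num)
    norm_num
    linarith
  obtain ⟨E, η, hη, hE, hmain⟩ := h (y ^ 4)⁻¹ (by positivity) hε
  have hlog : Real.log (1 / (y ^ 4)⁻¹) = 4 * Real.log y := by
    rw [one_div, inv_inv, Real.log_pow]; norm_num
  rw [hlog] at hE
  set e : ℝ := 5 * C * u * Real.log y with he
  have hly2 : 2 ≤ Real.log y := by linarith
  have hEe : E ≤ e := by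
    refine hE.trans ?_
    rw [he]
    have : C * u * (4 * Real.log y + 2 * m) ≤ C * u * (5 * Real.log y) := by
      gcongr
      linarith
    linarith
  have heB : Real.log B ≤ e := by
    rw [he]
    have h1 : 1 ≤ 5 * C * u := by nlinarith
    nlinarith
  have he00 : 0 < e := by linarith
  -- `m + η`
  have hcore : (Real.log e / e) ^ 3 / 4096 ≤ max (m + η) 0 := by
    refine he0 e (by linarith) _ (le_max_right _ _) fun T hT Q hQ => ?_
    refine (hmain T hT Q hQ).trans ?_
    have hP0 : (0 : ℝ) ≤ ∑ p ∈ Q, (p : ℝ) := Finset.sum_nonneg fun _ _ => Nat.cast_nonneg _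
    have h1 : m + η ≤ max (m + η) 0 := le_max_left _ _
    gcongr
  have hle : Real.log y / Real.log B ≤ Real.log e := by
    rw [div_le_iff₀ (by linarith)]
    have h1 : Real.log (Real.exp 1 * u) ≤ Real.log e := by
      apply Real.log_le_log (by positivity)
      rw [he]
      have := Real.exp_one_lt_d9
      have h2 : 10 * u ≤ 5 * C * u * Real.log y := by
        have h3 : 5 * 1 * u * 2 ≤ 5 * C * u * Real.log y := by gcongr
        linarith
      nlinarith
    rw [Real.log_mul (Real.exp_pos 1).ne' hu0.ne', Real.log_exp] at h1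
    rw [hly]
    nlinarith
  have hratio : 1 / (5 * C * u * Real.log B) ≤ Real.log e / e := by
    rw [div_le_div_iff₀ (by positivity) he00]
    rw [div_le_iff₀ (by linarith)] at hle
    rw [one_mul]
    calc e = 5 * C * u * Real.log y := he
      _ ≤ 5 * C * u * (Real.log e * Real.log B) := by gcongr
      _ = Real.log e * (5 * C * u * Real.log B) := by ring
  have hlow : 1 / (4096 * (5 * C * Real.log B) ^ 3) / u ^ 3 ≤ m + η := by
    have h1 : (1 / (5 * C * u * Real.log B)) ^ 3 / 4096 ≤ (Real.log e / e) ^ 3 / 4096 := by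
      gcongr
    have h2 : (1 / (5 * C * u * Real.log B)) ^ 3 / 4096 =
        1 / (4096 * (5 * C * Real.log B) ^ 3) / u ^ 3 := by field_simp
    rw [h2] at h1
    have h3 : 0 < 1 / (4096 * (5 * C * Real.log B) ^ 3) / u ^ 3 := by positivity
    rcases le_or_gt (m + η) 0 with h4 | h4
    · rw [max_eq_right h4] at hcore
      linarith
    · rw [max_eq_left h4.le] at hcore
      exact h1.trans hcore
  have hη2 : η ≤ 1 / (8192 * (5 * C * Real.log B) ^ 3) / u ^ 3 := by
    refine hη.trans ?_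
    have hlBB : Real.log B ≤ B := (Real.log_le_sub_one_of_pos hB0).trans (by linarith)
    rw [hy, mul_pow]
    rw [div_div, le_div_iff₀ (by positivity)]
    have h1 : C * (B ^ 4 * u ^ 4)⁻¹ * u * (8192 * (5 * C * Real.log B) ^ 3 * u ^ 3) =
        1024000 * C ^ 4 * Real.log B ^ 3 / B ^ 4 := by
      field_simp
      ring
    rw [h1, div_le_one (by positivity)]
    calc 1024000 * C ^ 4 * Real.log B ^ 3 ≤ B * B ^ 3 := by
          have : 0 ≤ Real.log B := by linarith
          gcongr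
      _ = B ^ 4 := by ring
  have hsum : 1 / (4096 * (5 * C * Real.log B) ^ 3) / u ^ 3 =
      2 * (1 / (8192 * (5 * C * Real.log B) ^ 3) / u ^ 3) := by field_simp; norm_num
  rw [hsum] at hlow
  linarith

end H90.LB
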